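import Pool.Agent.Helper54.NT.Main

/-! Translation to valuations, and the count of a set of points. -/

set_option autoImplicit false
set_option linter.unusedSectionVars false

namespace Pool.Agent.Helper54.NT

open NumberField IsDedekindDomain Finset Height Pool.Agent.H691R3 Pool.Agent.W223.AK

variable {K : Type} [Field K] [NumberField K] {n : ℕ}

theorem valuation_iff (v : Pr K) (a b : K) :
    v.valuation K a = v.valuation K b ↔ fv v a = fv v b := by
  have h1 : ∀ x : K, fv v x = ((WithZeroMulInt.toNNReal (NumberField.HeightOneSpectrum.absNorm_ne_zero v)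
      (v.valuation K x) : NNReal) : ℝ) := fun x => NumberField.FinitePlace.norm_embedding' (v := v) (x := x)
  rw [h1, h1, NNReal.coe_inj]
  constructor
  · intro h; rw [h]
  · intro h
    exact (WithZeroMulInt.toNNReal_strictMono (NumberField.HeightOneSpectrum.one_lt_absNorm_nnreal v)).injective h

open Classical in
theorem rad_eq {x : Fin n → K} (h : Good x) (hn : 2 ≤ n) :
    (∑ᶠ v : HeightOneSpectrum (𝓞 K),
      if ∀ i j, v.valuation K (x i) = v.valuation K (x j) then 0
      else Real.log (Ideal.absNorm v.asIdeal)) = ∑ v ∈ radset h hn, Real.log (Nv v) := by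
  rw [finsum_eq_sum_of_support_subset (s := radset h hn)]
  · refine sum_congr rfl fun v hv => ?_
    rw [mem_radset, Ne, T_empty_iff] at hv
    rw [if_neg]
    · rfl
    · intro hh
      exact hv fun i j => (valuation_iff v _ _).1 (hh i j)
  · intro v hv
    rw [mem_coe, mem_radset]
    intro hT
    rw [Function.mem_support] at hv
    refine hv (if_pos fun i j => ?_)
    exact (valuation_iff v _ _).2 ((T_empty_iff x v).1 hT i j)

theorem set_count {α : Type} (S : Set α) (N : ℝ)
    (h : ∀ E : Finset α, (∀ x ∈ E, x ∈ S) → (E.card : ℝ) ≤ N) :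
    S.Finite ∧ (S.ncard : ℝ) ≤ N := by
  have hf : S.Finite := by
    by_contra hinf
    obtain ⟨E, hE, hc⟩ := Set.Infinite.exists_subset_card_eq hinf (⌈N⌉₊ + 1)
    have h1 := h E fun x hx => hE hx
    rw [hc] at h1
    have := Nat.le_ceil N
    push_cast at h1
    linarith
  refine ⟨hf, ?_⟩
  rw [Set.ncard_eq_toFinset_card S hf]
  exact h _ fun x hx => by simpa using hx

end Pool.Agent.Helper54.NT
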