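import Mathlib
import Pool.Graph.R_seed8.W52.AK.CNT
import Pool.Graph.R_seed8.W822.AK.SU

/-! Counting lemmas over a number field: elements of bounded height with given support. -/

set_option autoImplicit false
set_option linter.unusedSectionVars false

namespace Pool.Agent.Helper54.NT

open NumberField IsDedekindDomain Finset Height Pool.Agent.H691R3 Pool.Agent.W223.AK

section Comb

/-- the constant for exponent vectors -/
theorem exists_const (η : ℝ) (hη : 0 < η) : ∃ C : ℝ, 1 ≤ C ∧ ∀ (J : Finset ℤ) (l : ℝ),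
    Real.log 2 ≤ l → ∑ j ∈ J, Real.exp (-(η * (|(j : ℝ)| * l))) ≤ C := by
  set r : ℝ := Real.exp (-(η * Real.log 2)) with hr
  have hr0 : 0 < r := Real.exp_pos _
  have hr1 : r < 1 := by
    rw [hr, Real.exp_lt_one_iff]
    have := Real.log_pos (by norm_num : (1 : ℝ) < 2)
    nlinarith
  have hs : Summable fun j : ℤ => r ^ j.natAbs := by
    refine Summable.of_nat_of_neg ?_ ?_
    · simpa using summable_geometric_of_lt_one hr0.le hr1
    · simpa using summable_geometric_of_lt_one hr0.le hr1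
  refine ⟨∑' j : ℤ, r ^ j.natAbs, ?_, ?_⟩
  · have := hs.sum_le_tsum {(0 : ℤ)} (fun j _ => by positivity)
    simpa using this
  · intro J l hl
    refine le_trans (Finset.sum_le_sum fun j _ => ?_) (hs.sum_le_tsum J fun j _ => by positivity)
    rw [hr, ← Real.exp_nat_mul]
    refine Real.exp_le_exp.2 ?_
    have h1 : ((j.natAbs : ℕ) : ℝ) = |(j : ℝ)| := by
      rw [Nat.cast_natAbs]; push_cast; rfl
    rw [h1]
    have h2 : 0 ≤ η * |(j : ℝ)| := by positivity
    nlinarith [mul_le_mul_of_nonneg_left hl h2]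

/-- counting by exponent vectors -/
theorem card_exp {α ι : Type} [DecidableEq ι] (η C : ℝ) (hC : ∀ (J : Finset ℤ) (l : ℝ),
    Real.log 2 ≤ l → ∑ j ∈ J, Real.exp (-(η * (|(j : ℝ)| * l))) ≤ C) (hC1 : 1 ≤ C)
    (e : α → ι → ℤ) (l : ι → ℝ) (hl : ∀ i, Real.log 2 ≤ l i) (U : ℝ) (hU : 0 ≤ U) (Z : Finset ι) :
    ∀ (F : Finset α) (b : ℝ), (∀ G ⊆ F, (∀ x ∈ G, ∀ y ∈ G, ∀ i ∈ Z, e x i = e y i) →
      (G.card : ℝ) ≤ U) → (∀ x ∈ F, ∑ i ∈ Z, |(e x i : ℝ)| * l i ≤ b) →
      (F.card : ℝ) ≤ U * Real.exp (η * b) * C ^ Z.card := by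
  classical
  induction Z using Finset.induction_on with
  | empty =>
    intro F b hF hb
    rcases F.eq_empty_or_nonempty with rfl | hne
    · simp only [Finset.card_empty, Nat.cast_zero]; positivity
    · have h1 := hF F (Finset.Subset.refl _) (fun x _ y _ i hi => absurd hi (Finset.notMem_empty i))
      obtain ⟨x, hx⟩ := hne
      have h2 := hb x hx
      simp only [Finset.sum_empty] at h2
      simp only [Finset.card_empty, pow_zero, mul_one]
      refine h1.trans (le_mul_of_one_le_right hU ?_)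
      by_cases hη : 0 ≤ η
      · exact Real.one_le_exp (mul_nonneg hη h2)
      · exfalso
        push Not at hη
        have h3 := hC (Finset.Icc 0 (⌈C⌉₊ : ℤ)) (Real.log 2) le_rfl
        have h4 : ∀ j ∈ Finset.Icc 0 (⌈C⌉₊ : ℤ), (1 : ℝ) ≤ Real.exp (-(η * (|(j : ℝ)| * Real.log 2))) := by
          intro j _
          refine Real.one_le_exp ?_
          have := Real.log_pos (by norm_num : (1 : ℝ) < 2)
          have : 0 ≤ |(j : ℝ)| * Real.log 2 := by positivity
          nlinarith
        have h5 := Finset.sum_le_sum h4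
        simp only [Finset.sum_const, Int.card_Icc, nsmul_eq_mul, mul_one] at h5
        have h6 : (((⌈C⌉₊ : ℤ) + 1 - 0).toNat : ℝ) = (⌈C⌉₊ : ℝ) + 1 := by
          have : ((⌈C⌉₊ : ℤ) + 1 - 0).toNat = ⌈C⌉₊ + 1 := by omega
          rw [this]; push_cast; ring
        rw [h6] at h5
        have := Nat.le_ceil C
        linarith
  | insert i Z hi ih =>
    intro F b hF hb
    set J := F.image (fun x => e x i) with hJ
    have h1 : (F.card : ℝ) = ∑ j ∈ J, ((F.filter fun x => e x i = j).card : ℝ) := by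
      exact_mod_cast Finset.card_eq_sum_card_image (fun x => e x i) F
    have h2 : ∀ j ∈ J, ((F.filter fun x => e x i = j).card : ℝ) ≤
        U * Real.exp (η * b) * C ^ Z.card * Real.exp (-(η * (|(j : ℝ)| * l i))) := by
      intro j _
      have h3 := ih (F.filter fun x => e x i = j) (b - |(j : ℝ)| * l i) ?_ ?_
      · refine h3.trans (le_of_eq ?_)
        rw [show η * (b - |(j : ℝ)| * l i) = η * b + -(η * (|(j : ℝ)| * l i)) by ring, Real.exp_add]
        ring
      · intro G hG hGe
        refine hF G (hG.trans (Finset.filter_subset _ _)) ?_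
        intro x hx y hy i' hi'
        rcases Finset.mem_insert.1 hi' with rfl | h
        · rw [(Finset.mem_filter.1 (hG hx)).2, (Finset.mem_filter.1 (hG hy)).2]
        · exact hGe x hx y hy i' h
      · intro x hx
        have h4 := hb x (Finset.mem_filter.1 hx).1
        rw [Finset.sum_insert hi, (Finset.mem_filter.1 hx).2] at h4
        linarith
    rw [h1, Finset.card_insert_of_notMem hi, pow_succ]
    refine (Finset.sum_le_sum h2).trans ?_
    rw [← Finset.mul_sum, ← mul_assoc]
    exact mul_le_mul_of_nonneg_left (hC J (l i) (hl i)) (by positivity)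

end Comb

variable {K : Type} [Field K] [NumberField K]

theorem hr_eq (x : K) : hr (aff x) = logHeight₁ x := by
  rw [NumberField.logHeight₁_eq]
  unfold hr aff
  have hp : ∀ a : ℝ, 0 ≤ a → Real.log (max a 1) = Real.posLog a := by
    intro a ha
    rw [Real.posLog_eq_log_max_one ha, max_comm]
  congr 1
  · refine Finset.sum_congr rfl fun w _ => ?_
    simp only [map_one]
    rw [hp _ (apply_nonneg w x)]
  · rw [← finsum_comp_equiv (FinitePlace.equivHeightOneSpectrum (K := K)).symm]
    refine finsum_congr fun v => ?_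
    simp only [map_one]
    rw [hp _ ((fv v).nonneg _)]
    rfl


theorem abs_log_eq {a : ℝ} (ha : 0 < a) :
    |Real.log a| = Real.log (max a 1) + Real.log (max a⁻¹ 1) := by
  rcases le_total a 1 with h | h
  · rw [max_eq_right h, Real.log_one, max_eq_left ((one_le_inv₀ ha).2 h), Real.log_inv,
      abs_of_nonpos (Real.log_nonpos ha.le h), zero_add]
  · rw [max_eq_left h, max_eq_right ((inv_le_one₀ ha).2 h), Real.log_one,
      abs_of_nonneg (Real.log_nonneg h), add_zero]

theorem hr_parts (u : K) (s : Finset (Pr K)) :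
    (∀ w : InfinitePlace K, (w.mult : ℝ) * Real.log (max (w u) 1) ≤ logHeight₁ u) ∧
    ∑ v ∈ s, Real.log (max (fv v u) 1) ≤ logHeight₁ u := by
  rw [← hr_eq]
  unfold hr aff
  simp only [map_one]
  have h1 : ∀ w : InfinitePlace K, 0 ≤ (w.mult : ℝ) * Real.log (max (w u) 1) := fun w =>
    mul_nonneg (Nat.cast_nonneg _) (Real.log_nonneg (le_max_right _ _))
  have h2 : ∀ v : HeightOneSpectrum (𝓞 K), 0 ≤ Real.log (max (fv v u) 1) := fun v =>
    Real.log_nonneg (le_max_right _ _)
  have h3 : (Function.support fun v : HeightOneSpectrum (𝓞 K) =>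
      Real.log (max (fv v u) 1)).Finite := by
    have := log_max_support_finite (K := K) (p := (u, 1)) (by simp)
    simpa only [map_one] using this
  have h4 : 0 ≤ ∑ᶠ v : HeightOneSpectrum (𝓞 K), Real.log (max (fv v u) 1) := finsum_nonneg h2
  constructor
  · intro w
    have := Finset.single_le_sum (f := fun w : InfinitePlace K =>
      (w.mult : ℝ) * Real.log (max (w u) 1)) (fun w _ => h1 w) (Finset.mem_univ w)
    linarith
  · have h5 : 0 ≤ ∑ w : InfinitePlace K, (w.mult : ℝ) * Real.log (max (w u) 1) :=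
      Finset.sum_nonneg fun w _ => h1 w
    have h6 : ∑ v ∈ s, Real.log (max (fv v u) 1) ≤
        ∑ᶠ v : HeightOneSpectrum (𝓞 K), Real.log (max (fv v u) 1) := by
      classical
      rw [finsum_eq_sum_of_support_subset (s := s ∪ h3.toFinset) _ (by
        intro v hv
        simp only [Finset.coe_union, Set.Finite.coe_toFinset]
        exact Or.inr hv)]
      exact Finset.sum_le_sum_of_subset_of_nonneg Finset.subset_union_left (fun v _ _ => h2 v)
    linarith

theorem sum_abs_log_le {u : K} (hu : u ≠ 0) (s : Finset (Pr K)) :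
    ∑ v ∈ s, |Real.log (fv v u)| ≤ 2 * logHeight₁ u := by
  have h1 := (hr_parts u s).2
  have h2 := (hr_parts u⁻¹ s).2
  rw [logHeight₁_inv] at h2
  have h3 : ∑ v ∈ s, |Real.log (fv v u)| = ∑ v ∈ s, Real.log (max (fv v u) 1) +
      ∑ v ∈ s, Real.log (max (fv v u⁻¹) 1) := by
    rw [← Finset.sum_add_distrib]
    refine Finset.sum_congr rfl fun v _ => ?_
    rw [map_inv₀]
    exact abs_log_eq ((fv v).pos hu)
  rw [h3]
  linarith

theorem arch_abs_log_le {u : K} (hu : u ≠ 0) (w : InfinitePlace K) :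
    |(w.mult : ℝ) * Real.log (w u)| ≤ 2 * logHeight₁ u := by
  have h1 := (hr_parts u ∅).1 w
  have h2 := (hr_parts u⁻¹ ∅).1 w
  rw [logHeight₁_inv, map_inv₀] at h2
  rw [abs_mul, abs_of_nonneg (Nat.cast_nonneg _), abs_log_eq (InfinitePlace.pos_iff.2 hu), mul_add]
  linarith

theorem log_Nv_pos (v : Pr K) : Real.log 2 ≤ Real.log (Nv v) :=
  Real.log_le_log (by norm_num) (two_le_Nv v)

/-- the support of an element -/
noncomputable def sup (u : K) (hu : u ≠ 0) : Finset (Pr K) := (fv_support_finite hu).toFinset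

theorem mem_sup {u : K} (hu : u ≠ 0) (v : Pr K) : v ∈ sup u hu ↔ fv v u ≠ 1 := by
  unfold sup; simp

theorem sum_sup_le {u : K} (hu : u ≠ 0) :
    ∑ v ∈ sup u hu, Real.log (Nv v) ≤ 2 * logHeight₁ u := by
  refine le_trans (Finset.sum_le_sum fun v hv => ?_) (sum_abs_log_le hu (sup u hu))
  rw [mem_sup] at hv
  obtain ⟨n, hn⟩ := log_fv v hu
  have h2 := log_Nv_pos v
  have h3 := Real.log_pos (by norm_num : (1 : ℝ) < 2)
  rw [hn, abs_mul, abs_of_nonneg (by linarith : 0 ≤ Real.log (Nv v))]
  have h4 : n ≠ 0 := by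
    rintro rfl
    rw [Int.cast_zero, zero_mul] at hn
    have := Real.eq_one_of_pos_of_log_eq_zero ((fv v).pos hu) hn
    exact hv this
  have h5 : (1 : ℝ) ≤ |(n : ℝ)| := by exact_mod_cast Int.one_le_abs h4
  nlinarith

/-- the squarefree ideal attached to a finite set of primes -/
noncomputable def ind (Z : Finset (Pr K)) : Idl K :=
  Finsupp.indicator Z (fun _ _ => 1)

theorem ind_apply (Z : Finset (Pr K)) (v : Pr K) [Decidable (v ∈ Z)] :
    ind Z v = if v ∈ Z then 1 else 0 := by
  classical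
  unfold ind
  by_cases h : v ∈ Z
  · simp [Finsupp.indicator_apply, h]
  · simp [Finsupp.indicator_apply, h]

theorem ind_support (Z : Finset (Pr K)) : (ind Z).support = Z := by
  classical
  ext v
  rw [Finsupp.mem_support_iff, ind_apply]
  by_cases h : v ∈ Z <;> simp [h]

theorem len_ind (Z : Finset (Pr K)) : len (ind Z) = ∑ v ∈ Z, Real.log (Nv v) := by
  classical
  unfold len
  rw [ind_support]
  refine Finset.sum_congr rfl fun v hv => ?_
  rw [ind_apply, if_pos hv, Nat.cast_one, one_mul]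

theorem rl_ind (Z : Finset (Pr K)) : rl (ind Z) = ∑ v ∈ Z, Real.log (Nv v) := by
  classical
  unfold rl
  rw [ind_support]

/-- the number of squarefree ideals -/
theorem count_sets (K : Type) [Field K] [NumberField K] (ε : ℝ) (hε : 0 < ε) :
    ∃ D : ℝ, 0 < D ∧ ∀ (L : ℝ), 0 ≤ L → ∀ E : Finset (Finset (Pr K)),
      (∀ U ∈ E, ∑ v ∈ U, Real.log (Nv v) ≤ L) → (E.card : ℝ) ≤ D * Real.exp (L + ε * L) := by
  classical
  obtain ⟨D, hD, h⟩ := Pool.Agent.W52.AK.cnt (K := K) ε hε
  refine ⟨D, hD, fun L hL E hE => ?_⟩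
  have h1 := h L L (E.image ind) hL (by
    intro a ha
    obtain ⟨U, hU, rfl⟩ := Finset.mem_image.1 ha
    rw [rl_ind, len_ind]
    exact ⟨hE U hU, hE U hU⟩)
  rwa [Finset.card_image_of_injective] at h1
  intro U V hUV
  rw [← ind_support U, hUV, ind_support]

/-- the number of elements of bounded height with given support -/
theorem count_supp (K : Type) [Field K] [NumberField K] (ε : ℝ) (hε : 0 < ε) :
    ∃ D : ℝ, 0 < D ∧ ∀ (B t : ℝ) (Z : Finset (Pr K)), 0 ≤ B → ∑ v ∈ Z, Real.log (Nv v) ≤ t →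
      ∀ F : Finset K, (∀ u ∈ F, u ≠ 0 ∧ logHeight₁ u ≤ B ∧ ∀ v, v ∉ Z → fv v u = 1) →
        (F.card : ℝ) ≤ D * Real.exp (ε * (B + t)) := by
  classical
  obtain ⟨C, hC1, hC⟩ := exists_const (ε / 4) (by positivity)
  obtain ⟨D₁, hD₁, h₁⟩ := Pool.Agent.W822.AK.su (K := K) ∅ (ε / 8) (by positivity)
  obtain ⟨D₂, hD₂, h₂⟩ := Pool.Agent.W52.AK.omg (K := K) C ε hC1 hε
  refine ⟨D₁ * D₂, by positivity, fun B t Z hB ht F hF => ?_⟩
  have hex : ∀ (u : K) (v : Pr K), ∃ n : ℤ, u ≠ 0 → fv v u = (Nv v) ^ n := by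
    intro u v
    by_cases hu : u = 0
    · exact ⟨0, fun h => absurd hu h⟩
    · obtain ⟨n, hn⟩ := fv_zpow v hu
      exact ⟨n, fun _ => hn⟩
  choose e he using hex
  have hNv : ∀ v : Pr K, 0 < Real.log (Nv v) := fun v =>
    lt_of_lt_of_le (Real.log_pos (by norm_num)) (log_Nv_pos v)
  have key := card_exp (α := K) (ι := Pr K) (ε / 4) C hC hC1 e (fun v => Real.log (Nv v))
    (fun v => log_Nv_pos v) (D₁ * Real.exp (ε / 8 * (4 * B))) (by positivity) Z F (2 * B) ?_ ?_
  · have h3 := h₂ (ind Z)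
    rw [ind_support, len_ind] at h3
    calc (F.card : ℝ) ≤ D₁ * Real.exp (ε / 8 * (4 * B)) * Real.exp (ε / 4 * (2 * B)) * C ^ Z.card :=
          key
      _ ≤ D₁ * Real.exp (ε / 8 * (4 * B)) * Real.exp (ε / 4 * (2 * B)) *
          (D₂ * Real.exp (ε * t)) := by
          refine mul_le_mul_of_nonneg_left (h3.trans ?_) (by positivity)
          exact mul_le_mul_of_nonneg_left (Real.exp_le_exp.2 (mul_le_mul_of_nonneg_left ht hε.le))
            hD₂.le
      _ = D₁ * D₂ * Real.exp (ε * (B + t)) := by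
          rw [show ε * (B + t) = ε / 8 * (4 * B) + ε / 4 * (2 * B) + ε * t by ring, Real.exp_add,
            Real.exp_add]
          ring
  · intro G hG hGe
    rcases G.eq_empty_or_nonempty with rfl | ⟨x₀, hx₀⟩
    · simp only [Finset.card_empty, Nat.cast_zero]; positivity
    have hx₀F := hF x₀ (hG hx₀)
    have h4 := h₁ (4 * B) (G.image fun x => x / x₀) (by positivity) ?_
    · rwa [Finset.card_image_of_injective] at h4
      intro x y hxy
      simp only at hxy
      exact (div_left_inj' hx₀F.1).1 hxy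
    · intro y hy
      obtain ⟨x, hx, rfl⟩ := Finset.mem_image.1 hy
      have hxF := hF x (hG hx)
      have hne : x / x₀ ≠ 0 := div_ne_zero hxF.1 hx₀F.1
      have hht : logHeight₁ (x / x₀) ≤ 2 * B := by
        rw [div_eq_mul_inv]
        refine (logHeight₁_mul_le _ _).trans ?_
        rw [logHeight₁_inv]
        linarith [hxF.2.1, hx₀F.2.1]
      refine ⟨hne, ?_, ?_⟩
      · intro v _
        rw [map_div₀]
        by_cases hv : v ∈ Z
        · rw [he x v hxF.1, he x₀ v hx₀F.1, hGe x hx x₀ hx₀ v hv, div_self]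
          have := two_le_Nv v
          positivity
        · rw [hxF.2.2 v hv, hx₀F.2.2 v hv, div_one]
      · intro v hv
        rcases v with w | v
        · have h5 := arch_abs_log_le hne w
          have h6 : |mt (Sum.inl w : Pl K) * Real.log (av (Sum.inl w : Pl K) (x / x₀))| =
              |(w.mult : ℝ) * Real.log (w (x / x₀))| := rfl
          rw [h6]
          linarith
        · unfold Spl at hv
          simp at hv
  · intro x hx
    have hxF := hF x hx
    have h5 := sum_abs_log_le hxF.1 Z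
    refine le_trans (le_of_eq ?_) (h5.trans (by linarith [hxF.2.1]))
    refine Finset.sum_congr rfl fun v _ => ?_
    rw [he x v hxF.1, Real.log_zpow, abs_mul, abs_of_pos (hNv v)]

end Pool.Agent.Helper54.NT
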