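import Mathlib

/-! Coprime pairs in boxes. -/

set_option autoImplicit false

namespace Pool.Agent.Helper54.NT

open Finset

/-- coprime pairs `(S, y)` with `N < S ≤ 2 N`, `1 ≤ y ≤ Y` -/
def cop (N Y : ℕ) : Finset (ℕ × ℕ) :=
  ((Ioc N (2 * N)) ×ˢ (Ioc 0 Y)).filter fun p => Nat.Coprime p.1 p.2

theorem sum_sq_le (Y : ℕ) : ∑ g ∈ Icc 2 Y, 1 / (g : ℝ) ^ 2 ≤ 3 / 4 := by
  have h : ∀ Y : ℕ, 2 ≤ Y → ∑ g ∈ Icc 2 Y, 1 / (g : ℝ) ^ 2 ≤ 3 / 4 - 1 / (Y : ℝ) := by
    intro Y hY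
    induction Y, hY using Nat.le_induction with
    | base => norm_num
    | succ n hn ih =>
      rw [← Finset.insert_Icc_right_eq_Icc_add_one (by omega), sum_insert (by simp)]
      have hn' : (2 : ℝ) ≤ n := by exact_mod_cast hn
      have h1 : 1 / ((n + 1 : ℕ) : ℝ) ^ 2 ≤ 1 / (n : ℝ) - 1 / ((n + 1 : ℕ) : ℝ) := by
        push_cast
        rw [div_sub_div _ _ (by positivity) (by positivity), div_le_div_iff₀ (by positivity)
          (by positivity)]
        nlinarith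
      linarith
  rcases lt_or_ge Y 2 with h1 | h1
  · rw [Icc_eq_empty (by omega)]; norm_num
  · have := h Y h1
    have : 0 ≤ 1 / (Y : ℝ) := by positivity
    linarith

theorem sum_inv_le (Y : ℕ) : ∑ g ∈ Icc 2 Y, 1 / (g : ℝ) ≤ Real.sqrt Y := by
  have h1 := Finset.sum_mul_sq_le_sq_mul_sq (Icc 2 Y) (fun g => 1 / (g : ℝ)) (fun _ => (1 : ℝ))
  simp only [mul_one, one_pow, sum_const, Nat.card_Icc, nsmul_eq_mul] at h1
  have h2 : ∑ g ∈ Icc 2 Y, (1 / (g : ℝ)) ^ 2 ≤ 3 / 4 := by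
    have := sum_sq_le Y
    simpa only [one_div, inv_pow] using this
  have h3 : ((Y + 1 - 2 : ℕ) : ℝ) ≤ Y := by
    have : Y + 1 - 2 ≤ Y := by omega
    exact_mod_cast this
  have h4 : (∑ g ∈ Icc 2 Y, 1 / (g : ℝ)) ^ 2 ≤ Y := by
    refine h1.trans ?_
    have h5 : (0 : ℝ) ≤ ((Y + 1 - 2 : ℕ) : ℝ) := Nat.cast_nonneg _
    have h6 : 0 ≤ ∑ g ∈ Icc 2 Y, (1 / (g : ℝ)) ^ 2 := sum_nonneg fun g _ => by positivity
    nlinarith
  exact Real.le_sqrt_of_sq_le h4

theorem cop_card (N Y : ℕ) (hYN : Y ≤ N) (hN : 256 ≤ N) : (N : ℝ) * Y / 8 ≤ (cop N Y).card := by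
  classical
  set A := (Ioc N (2 * N)) ×ˢ (Ioc 0 Y) with hA
  have hAc : (A.card : ℝ) = N * Y := by
    rw [hA, card_product, Nat.card_Ioc, Nat.card_Ioc]
    rw [show 2 * N - N = N by omega, Nat.sub_zero]
    push_cast
    ring
  have hsub : A.filter (fun p => ¬ Nat.Coprime p.1 p.2) ⊆
      (Icc 2 Y).biUnion fun g => (((Ioc N (2 * N)).filter fun s => g ∣ s) ×ˢ
        ((Ioc 0 Y).filter fun y => g ∣ y)) := by
    rintro ⟨s, y⟩ hp
    rw [mem_filter, hA, mem_product, mem_Ioc, mem_Ioc] at hp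
    obtain ⟨⟨h1, h2⟩, h3⟩ := hp
    simp only at h1 h2 h3
    rw [mem_biUnion]
    have hpos : 0 < Nat.gcd s y := Nat.gcd_pos_of_pos_right _ h2.1
    refine ⟨Nat.gcd s y, ?_, ?_⟩
    · rw [mem_Icc]
      refine ⟨?_, (Nat.gcd_le_right _ h2.1).trans h2.2⟩
      have : Nat.gcd s y ≠ 1 := h3
      omega
    · rw [mem_product, mem_filter, mem_filter, mem_Ioc, mem_Ioc]
      exact ⟨⟨h1, Nat.gcd_dvd_left _ _⟩, ⟨h2, Nat.gcd_dvd_right _ _⟩⟩
  have hcard : ((A.filter (fun p => ¬ Nat.Coprime p.1 p.2)).card : ℝ) ≤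
      ∑ g ∈ Icc 2 Y, ((N : ℝ) / g + 1) * (Y / g) := by
    calc ((A.filter (fun p => ¬ Nat.Coprime p.1 p.2)).card : ℝ)
        ≤ (((Icc 2 Y).biUnion fun g => (((Ioc N (2 * N)).filter fun s => g ∣ s) ×ˢ
        ((Ioc 0 Y).filter fun y => g ∣ y))).card : ℝ) := by exact_mod_cast card_le_card hsub
      _ ≤ ∑ g ∈ Icc 2 Y, ((((Ioc N (2 * N)).filter fun s => g ∣ s) ×ˢ
        ((Ioc 0 Y).filter fun y => g ∣ y)).card : ℝ) := by exact_mod_cast card_biUnion_le
      _ ≤ ∑ g ∈ Icc 2 Y, ((N : ℝ) / g + 1) * (Y / g) := by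
          refine sum_le_sum fun g hg => ?_
          rw [mem_Icc] at hg
          have hg0 : (0 : ℝ) < g := by exact_mod_cast (by omega : 0 < g)
          rw [card_product]
          push_cast
          have h1 : (((Ioc 0 Y).filter fun y => g ∣ y).card : ℝ) ≤ Y / g := by
            rw [Nat.Ioc_filter_dvd_card_eq_div]
            exact Nat.cast_div_le
          have h2 : (((Ioc N (2 * N)).filter fun s => g ∣ s).card : ℝ) ≤ N / g + 1 := by
            have h3 : ((Ioc N (2 * N)).filter fun s => g ∣ s).card + N / g = (2 * N) / g := by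
              rw [← Nat.Ioc_filter_dvd_card_eq_div N g, ← Nat.Ioc_filter_dvd_card_eq_div (2 * N) g,
                ← card_union_of_disjoint]
              · congr 1
                rw [← filter_union, union_comm, Ioc_union_Ioc_eq_Ioc (by omega) (by omega)]
              · rw [disjoint_left]
                intro a ha hb
                rw [mem_filter, mem_Ioc] at ha hb
                omega
            have h4 : ((2 * N) / g : ℕ) ≤ N / g + N / g + 1 := by
              have h5 := Nat.div_add_mod N g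
              have h6 := Nat.mod_lt N (by omega : g > 0)
              have h7 : 2 * N < g * (N / g + N / g + 2) := by nlinarith
              have h8 : 2 * N / g < N / g + N / g + 2 := Nat.div_lt_of_lt_mul h7
              omega
            have h5 : ((Ioc N (2 * N)).filter fun s => g ∣ s).card ≤ N / g + 1 := by omega
            have h6 : ((N / g : ℕ) : ℝ) ≤ N / g := Nat.cast_div_le
            have h7 : (((Ioc N (2 * N)).filter fun s => g ∣ s).card : ℝ) ≤ ((N / g : ℕ) : ℝ) + 1 := by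
              exact_mod_cast h5
            linarith
          exact mul_le_mul h2 h1 (Nat.cast_nonneg _) (by positivity)
  have hsum : ∑ g ∈ Icc 2 Y, ((N : ℝ) / g + 1) * (Y / g) =
      N * Y * ∑ g ∈ Icc 2 Y, 1 / (g : ℝ) ^ 2 + Y * ∑ g ∈ Icc 2 Y, 1 / (g : ℝ) := by
    rw [mul_sum, mul_sum, ← sum_add_distrib]
    refine sum_congr rfl fun g hg => ?_
    rw [mem_Icc] at hg
    have hg0 : (g : ℝ) ≠ 0 := by
      have : 0 < g := by omega
      exact_mod_cast this.ne'
    field_simp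
  have h1 := sum_sq_le Y
  have h2 := sum_inv_le Y
  have h3 : Real.sqrt Y ≤ (N : ℝ) / 16 := by
    rw [Real.sqrt_le_left (by positivity)]
    have h4 : (Y : ℝ) ≤ N := by exact_mod_cast hYN
    have h5 : (256 : ℝ) ≤ N := by exact_mod_cast hN
    nlinarith
  have h4 : (A.card : ℝ) = (cop N Y).card + ((A.filter (fun p => ¬ Nat.Coprime p.1 p.2)).card : ℝ) := by
    unfold cop
    rw [← hA]
    exact_mod_cast (card_filter_add_card_filter_not (s := A) (fun p => Nat.Coprime p.1 p.2)).symm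
  rw [hsum] at hcard
  have hY0 : (0 : ℝ) ≤ Y := Nat.cast_nonneg _
  have hN0 : (0 : ℝ) ≤ N := Nat.cast_nonneg _
  have h5 : (N : ℝ) * Y * ∑ g ∈ Icc 2 Y, 1 / (g : ℝ) ^ 2 ≤ N * Y * (3 / 4) :=
    mul_le_mul_of_nonneg_left h1 (by positivity)
  have h6 : (Y : ℝ) * ∑ g ∈ Icc 2 Y, 1 / (g : ℝ) ≤ Y * (N / 16) :=
    mul_le_mul_of_nonneg_left (h2.trans h3) hY0
  rw [hAc] at h4
  nlinarith [mul_nonneg hN0 hY0]

end Pool.Agent.Helper54.NT
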