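import Pool.Agent.Helper54.NT.Low

/-! Points from polynomial identities. -/

set_option autoImplicit false
set_option linter.unusedSectionVars false

namespace Pool.Agent.Helper54.NT

open NumberField IsDedekindDomain Finset Height Pool.Agent.H691R3 Pool.Agent.W223.AK

/-- the coordinates of the point -/
noncomputable def zn (N K s P : ℕ) (t : ℕ → ℕ) (i : ℕ) : ℚ :=
  if i = 0 then 1
  else if i ≤ N then -((if i - 1 = s then (1 / 2) ^ K else 1) * t (i - 1)) / P
  else -((1 / 2) ^ (i - N) * t s) / P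

theorem zn_neg {N K s P : ℕ} {t : ℕ → ℕ} (hP : 0 < P) (hs : s < N) (ht : ∀ j < N, 0 < t j) {i : ℕ}
    (hi : i ≠ 0) : zn N K s P t i < 0 := by
  unfold zn
  have hP' : (0 : ℚ) < P := by exact_mod_cast hP
  rw [if_neg hi]
  split_ifs with h1 h2
  · have h3 : (0 : ℚ) < t (i - 1) := by exact_mod_cast ht _ (by omega)
    rw [neg_div]
    have : (0 : ℚ) < (1 / 2) ^ K * t (i - 1) / P := by positivity
    linarith
  · have h3 : (0 : ℚ) < t (i - 1) := by exact_mod_cast ht _ (by omega)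
    rw [neg_div]
    have : (0 : ℚ) < 1 * t (i - 1) / P := by positivity
    linarith
  · have h3 : (0 : ℚ) < t s := by exact_mod_cast ht _ hs
    rw [neg_div]
    have : (0 : ℚ) < (1 / 2) ^ (i - N) * t s / P := by positivity
    linarith

theorem sum_half (K : ℕ) : ∑ l ∈ range K, (1 / 2 : ℚ) ^ (l + 1) = 1 - (1 / 2) ^ K := by
  induction K with
  | zero => simp
  | succ K ih =>
    rw [sum_range_succ, ih, pow_succ]
    ring

theorem zn_sum {N K s P : ℕ} {t : ℕ → ℕ} (hP : 0 < P) (hs : s < N)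
    (hsum : ∑ j ∈ range N, t j = P) :
    ∑ i : Fin (1 + N + K), zn N K s P t (i : ℕ) = 0 := by
  have hP' : (P : ℚ) ≠ 0 := by exact_mod_cast hP.ne'
  rw [Fin.sum_univ_eq_sum_range (fun i => zn N K s P t i) (1 + N + K), sum_range_add, sum_range_add]
  have h1 : ∑ i ∈ range 1, zn N K s P t i = 1 := by simp [zn]
  have h2 : ∑ j ∈ range N, zn N K s P t (1 + j) = -1 + (1 - (1 / 2) ^ K) * t s / P := by
    have h3 : ∀ j ∈ range N, zn N K s P t (1 + j) =
        -(t j : ℚ) / P + (if j = s then (1 - (1 / 2 : ℚ) ^ K) * (t s : ℚ) / (P : ℚ) else 0) := by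
      intro j hj
      rw [mem_range] at hj
      unfold zn
      rw [if_neg (by omega), if_pos (by omega), show 1 + j - 1 = j by omega]
      split_ifs with h4
      · rw [h4]; ring
      · ring
    rw [sum_congr rfl h3, sum_add_distrib, sum_ite_eq' (range N) s, if_pos (mem_range.2 hs),
      ← sum_div, sum_neg_distrib, ← Nat.cast_sum, hsum, neg_div, div_self hP']
  have h3 : ∑ l ∈ range K, zn N K s P t (1 + N + l) = -((1 - (1 / 2) ^ K) * t s / P) := by
    have h4 : ∀ l ∈ range K, zn N K s P t (1 + N + l) = (1 / 2) ^ (l + 1) * (-(t s / P)) := by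
      intro l _
      unfold zn
      rw [if_neg (by omega), if_neg (by omega), show 1 + N + l - N = l + 1 by omega]
      ring
    rw [sum_congr rfl h4, ← sum_mul, sum_half]
    ring
  rw [h1, h2, h3]
  ring

theorem good_of_neg {n : ℕ} (z : Fin (n + 1) → ℚ) (h : ∀ i, i ≠ 0 → z i < 0)
    (hsum : ∑ i, z i = 0) : Good z := by
  classical
  refine ⟨hsum, ?_⟩
  have hneg : ∀ I : Finset (Fin (n + 1)), I.Nonempty → (0 : Fin (n + 1)) ∉ I → ∑ i ∈ I, z i < 0 := by
    intro I hI h0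
    refine sum_neg (fun i hi => h i ?_) hI
    rintro rfl
    exact h0 hi
  intro I hI hu
  by_cases h0 : (0 : Fin (n + 1)) ∈ I
  · have h1 : (Iᶜ).Nonempty := by
      rw [nonempty_iff_ne_empty]
      intro hh
      exact hu (by rwa [compl_eq_empty_iff] at hh)
    have h2 := hneg Iᶜ h1 (by simpa using h0)
    have h3 := sum_add_sum_compl I z
    rw [hsum] at h3
    intro hh
    rw [hh, zero_add] at h3
    linarith
  · exact (hneg I hI h0).ne

theorem zn_height {N K s P : ℕ} {t : ℕ → ℕ} (hP : 0 < P) (hs : s < N)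
    (hsum : ∑ j ∈ range N, t j = P) :
    logHeight (fun i : Fin (1 + N + K) => zn N K s P t (i : ℕ)) ≤ Real.log ((2 ^ K * P : ℕ) : ℝ) := by
  have hP' : (P : ℚ) ≠ 0 := by exact_mod_cast hP.ne'
  have htP : ∀ j < N, t j ≤ P := by
    intro j hj
    rw [← hsum]
    exact single_le_sum (f := t) (fun i _ => Nat.zero_le _) (mem_range.2 hj)
  set w : Fin (1 + N + K) → ℤ := fun i =>
    if (i : ℕ) = 0 then ((2 ^ K * P : ℕ) : ℤ)
    else if (i : ℕ) ≤ N then -(((if (i : ℕ) - 1 = s then 1 else 2 ^ K) * t ((i : ℕ) - 1) : ℕ) : ℤ)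
    else -((2 ^ (K - ((i : ℕ) - N)) * t s : ℕ) : ℤ) with hw
  have h1 : (fun i : Fin (1 + N + K) => zn N K s P t (i : ℕ)) =
      ((1 : ℚ) / ((2 ^ K * P : ℕ) : ℚ)) • (fun i => (w i : ℚ)) := by
    funext i
    rw [Pi.smul_apply, smul_eq_mul]
    simp only [hw]
    unfold zn
    have hk : ∀ l : ℕ, ((1 : ℚ) / 2) ^ l * 2 ^ l = 1 := by
      intro l
      rw [← mul_pow]
      norm_num
    split_ifs with h2 h3 h4
    · push_cast
      field_simp
    · push_cast
      field_simp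
      linear_combination (-(t ((i : ℕ) - 1) : ℚ)) * hk K
    · push_cast
      field_simp
    · have h6 : K = (K - ((i : ℕ) - N)) + ((i : ℕ) - N) := by
        have := i.isLt
        omega
      have h7 : (2 : ℚ) ^ K = 2 ^ (K - ((i : ℕ) - N)) * 2 ^ ((i : ℕ) - N) := by
        rw [← pow_add, ← h6]
      push_cast
      rw [h7]
      field_simp
      linear_combination (-(t s : ℚ)) * hk ((i : ℕ) - N)
  have h2K : 1 ≤ 2 ^ K := Nat.one_le_two_pow
  rw [h1, logHeight_smul_eq_logHeight _ (by positivity)]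
  refine ht_int_le w ⟨0, by omega⟩ ?_ (2 ^ K * P) ?_
  · simp only [hw]
    rw [if_pos trivial]
    have : 0 < 2 ^ K * P := by positivity
    exact_mod_cast this.ne'
  · intro i
    simp only [hw]
    split_ifs with h2 h3 h4
    · rw [abs_of_nonneg (Int.natCast_nonneg _)]
    · rw [abs_neg, abs_of_nonneg (Int.natCast_nonneg _)]
      have := htP ((i : ℕ) - 1) (by omega)
      exact_mod_cast (by nlinarith : 1 * t ((i : ℕ) - 1) ≤ 2 ^ K * P)
    · rw [abs_neg, abs_of_nonneg (Int.natCast_nonneg _)]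
      have := htP ((i : ℕ) - 1) (by omega)
      exact_mod_cast (by nlinarith : 2 ^ K * t ((i : ℕ) - 1) ≤ 2 ^ K * P)
    · rw [abs_neg, abs_of_nonneg (Int.natCast_nonneg _)]
      have h5 := htP s hs
      have h6 : 2 ^ (K - ((i : ℕ) - N)) ≤ 2 ^ K := Nat.pow_le_pow_right (by norm_num) (by omega)
      exact_mod_cast Nat.mul_le_mul h6 h5

theorem zn_unit {N K s P b : ℕ} {t : ℕ → ℕ} (hs : s < N)
    (hdiv : ∀ j < N, ∃ e, t j ∣ b ^ e) (hPb : ∃ e, P ∣ b ^ e) (v : Pr ℚ)
    (hv : fv v ((2 * b : ℕ) : ℚ) = 1) (i : ℕ) :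
    fv v (zn N K s P t i) = 1 := by
  have hb : fv v (b : ℚ) = 1 ∧ fv v ((2 : ℕ) : ℚ) = 1 := by
    rw [Nat.cast_mul, map_mul] at hv
    have h1 := fv_nat_le v b
    have h2 := fv_nat_le v 2
    have h3 := (fv v).nonneg (b : ℚ)
    have h4 := (fv v).nonneg ((2 : ℕ) : ℚ)
    constructor
    · by_contra hh
      have : fv v (b : ℚ) < 1 := lt_of_le_of_ne h1 hh
      nlinarith
    · by_contra hh
      have : fv v ((2 : ℕ) : ℚ) < 1 := lt_of_le_of_ne h2 hh
      nlinarith
  have hunit : ∀ a : ℕ, (∃ e, a ∣ b ^ e) → fv v (a : ℚ) = 1 := by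
    rintro a ⟨e, q, hq⟩
    have h1 : fv v (a : ℚ) * fv v (q : ℚ) = 1 := by
      rw [← map_mul, ← Nat.cast_mul, ← hq, Nat.cast_pow, map_pow, hb.1, one_pow]
    have h2 := fv_nat_le v a
    have h3 := fv_nat_le v q
    have h4 := (fv v).nonneg (a : ℚ)
    have h5 := (fv v).nonneg (q : ℚ)
    by_contra hh
    have : fv v (a : ℚ) < 1 := lt_of_le_of_ne h2 hh
    nlinarith
  have h2 : fv v (1 / 2 : ℚ) = 1 := by
    have h3 : ((1 : ℚ) / 2) = ((2 : ℕ) : ℚ)⁻¹ := by norm_num
    rw [h3, map_inv₀, hb.2, inv_one]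
  have hPv := hunit P hPb
  unfold zn
  split_ifs with h3 h4 h5
  · exact map_one _
  · rw [map_div₀, (fv v).map_neg, map_mul, map_pow, h2, hunit _ (hdiv _ (by omega)), hPv]
    norm_num
  · rw [map_div₀, (fv v).map_neg, map_mul, map_one, hunit _ (hdiv _ (by omega)), hPv]
    norm_num
  · rw [map_div₀, (fv v).map_neg, map_mul, map_pow, h2, hunit _ (hdiv _ hs), hPv]
    norm_num

end Pool.Agent.Helper54.NT
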