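import Pool.Agent.Helper54.NT.LowN

/-! The two families of identities. -/

set_option autoImplicit false
set_option linter.unusedSectionVars false

namespace Pool.Agent.Helper54.NT

open NumberField IsDedekindDomain Finset Height Pool.Agent.H691R3 Pool.Agent.W223.AK

/-- `x³ + y³ + 3 x y (x + y) = (x + y)³` -/
def t3 (x : Fin (0 + 2) → ℕ) (j : ℕ) : ℕ :=
  if j = 0 then x 0 ^ 3 else if j = 1 then x 1 ^ 3 else 3 * (x 0 * x 1 * (x 0 + x 1))

theorem fam3 : Fam 0 3 t3 3 (fun i => (i : ℕ)) where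
  R_pos := by norm_num
  inj := Fin.val_injective
  lt i := by have := i.isLt; omega
  sum x := by
    have h : ∑ i : Fin (0 + 2), x i = x 0 + x 1 := Fin.sum_univ_two x
    rw [h]
    simp only [sum_range_succ, sum_range_zero, t3]
    norm_num
    ring
  pow x i := by
    have h : i = 0 ∨ i = 1 := by
      have := i.isLt
      rcases i with ⟨i, hi⟩
      interval_cases i
      · left; rfl
      · right; rfl
    rcases h with rfl | rfl
    · rfl
    · rfl
  pos x hx j _ := by
    have h0 := hx 0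
    have h1 := hx 1
    unfold t3
    split_ifs <;> positivity
  div x j _ := by
    refine ⟨3, ?_⟩
    rw [Fin.prod_univ_two, Fin.sum_univ_two]
    unfold t3
    split_ifs
    · exact pow_dvd_pow_of_dvd ⟨3 * (x 1 * (x 0 + x 1)), by ring⟩ 3
    · exact pow_dvd_pow_of_dvd ⟨3 * (x 0 * (x 0 + x 1)), by ring⟩ 3
    · exact dvd_pow_self _ (by norm_num)

/-- all products of `k + 3` of the numbers -/
noncomputable def tN (k : ℕ) (x : Fin (k + 2) → ℕ) (j : ℕ) : ℕ :=
  if h : j < Fintype.card (Fin (k + 3) → Fin (k + 2)) then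
    ∏ l, x ((Fintype.equivFin (Fin (k + 3) → Fin (k + 2))).symm ⟨j, h⟩ l) else 0

theorem famN (k : ℕ) : Fam k (Fintype.card (Fin (k + 3) → Fin (k + 2))) (tN k) 1
    (fun i => (Fintype.equivFin (Fin (k + 3) → Fin (k + 2)) (fun _ => i) : ℕ)) where
  R_pos := one_pos
  inj i j h := by
    have h1 := (Fintype.equivFin (Fin (k + 3) → Fin (k + 2))).injective (Fin.ext h)
    exact congrFun h1 0
  lt i := Fin.isLt _
  sum x := by
    rw [← Fin.sum_univ_eq_sum_range (fun j => tN k x j), Fintype.sum_pow]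
    rw [← Equiv.sum_comp (Fintype.equivFin (Fin (k + 3) → Fin (k + 2)))
      (fun j => tN k x (j : ℕ))]
    refine sum_congr rfl fun f _ => ?_
    unfold tN
    rw [dif_pos (Fin.isLt _)]
    simp
  pow x i := by
    unfold tN
    rw [dif_pos (Fin.isLt _)]
    simp
  pos x hx j hj := by
    unfold tN
    rw [dif_pos hj]
    exact prod_pos fun l _ => hx _
  div x j hj := by
    refine ⟨k + 3, ?_⟩
    unfold tN
    rw [dif_pos hj]
    calc ∏ l, x ((Fintype.equivFin (Fin (k + 3) → Fin (k + 2))).symm ⟨j, hj⟩ l)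
        ∣ ∏ _l : Fin (k + 3), (1 * ((∏ i, x i) * ∑ i, x i)) := by
          refine prod_dvd_prod_of_dvd _ _ fun l _ => ?_
          rw [one_mul]
          exact Dvd.dvd.mul_right (dvd_prod_of_mem _ (mem_univ _)) _
      _ = (1 * ((∏ i, x i) * ∑ i, x i)) ^ (k + 3) := by simp

end Pool.Agent.Helper54.NT
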