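import Mathlib

/-! A random maximal chain of subsets carries its share of every weight. -/

set_option autoImplicit false

namespace Pool.Agent.Helper54.NT

open Finset

/-- the image under `σ` of `{k, …, n - 1}` -/
def tail {n : ℕ} (σ : Equiv.Perm (Fin n)) (k : ℕ) : Finset (Fin n) :=
  univ.filter fun i => k ≤ (σ.symm i : ℕ)

theorem mem_tail {n : ℕ} (σ : Equiv.Perm (Fin n)) (k : ℕ) (i : Fin n) :
    i ∈ tail σ k ↔ k ≤ (σ.symm i : ℕ) := by simp [tail]

theorem card_tail {n : ℕ} (σ : Equiv.Perm (Fin n)) (k : ℕ) : (tail σ k).card = n - k := by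
  have h1 : tail σ k = (univ.filter fun i : Fin n => k ≤ (i : ℕ)).map σ.toEmbedding := by
    ext i
    rw [mem_tail]
    simp only [mem_map_equiv, mem_filter, mem_univ, true_and]
  rw [h1, card_map]
  have h2 : (univ.filter fun i : Fin n => k ≤ (i : ℕ)) = univ \ univ.filter fun i : Fin n => (i : ℕ) < k := by
    ext i; simp
  rw [h2, card_sdiff_of_subset (subset_univ _)]
  rw [Finset.card_univ, Fintype.card_fin]
  rcases le_or_gt k n with h | h
  · rw [Fin.card_filter_val_lt, min_eq_right h]
  · rw [Fin.card_filter_val_lt, min_eq_left h.le]; omega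

/-- number of permutations with given tail -/
def num {n : ℕ} (k : ℕ) (I : Finset (Fin n)) : ℕ :=
  (univ.filter fun σ : Equiv.Perm (Fin n) => tail σ k = I).card

theorem tail_mul {n : ℕ} (τ σ : Equiv.Perm (Fin n)) (k : ℕ) (i : Fin n) :
    i ∈ tail (τ * σ) k ↔ τ.symm i ∈ tail σ k := by
  rw [mem_tail, mem_tail]; rfl

theorem num_le {n : ℕ} (k : ℕ) (I J : Finset (Fin n)) (h : I.card = J.card) : num k I ≤ num k J := by
  classical
  set e : {x // x ∈ I} ≃ {x // x ∈ J} := Finset.equivOfCardEq h
  set τ : Equiv.Perm (Fin n) := e.extendSubtype with hτ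
  have h1 : ∀ i, i ∈ J ↔ τ.symm i ∈ I := by
    intro i
    constructor
    · intro hi
      by_contra hc
      have := e.extendSubtype_not_mem (τ.symm i) hc
      rw [← hτ, Equiv.apply_symm_apply] at this
      exact this hi
    · intro hi
      have := e.extendSubtype_mem (τ.symm i) hi
      rwa [← hτ, Equiv.apply_symm_apply] at this
  unfold num
  refine card_le_card_of_injOn (fun σ => τ * σ) ?_ ?_
  · intro σ hσ
    simp only [coe_filter, mem_univ, true_and, Set.mem_ofPred_eq] at hσ ⊢
    ext i
    rw [tail_mul, hσ, ← h1]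
  · intro σ _ σ' _ hh
    exact mul_left_cancel hh

theorem num_mul {n : ℕ} (k : ℕ) (I : Finset (Fin n)) (h : I.card = n - k) :
    num k I * n.choose (n - k) = n.factorial := by
  classical
  have h1 : ∑ J ∈ powersetCard (n - k) (univ : Finset (Fin n)), num k J = n.factorial := by
    unfold num
    rw [← card_eq_sum_card_fiberwise]
    · rw [Finset.card_univ, Fintype.card_perm, Fintype.card_fin]
    · intro σ _
      simp only [subset_univ, true_and, mem_coe, mem_powersetCard]
      exact card_tail σ k
  have h2 : ∀ J ∈ powersetCard (n - k) (univ : Finset (Fin n)), num k J = num k I := by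
    intro J hJ
    have hJ' := (mem_powersetCard.1 hJ).2
    exact le_antisymm (num_le k J I (by omega)) (num_le k I J (by omega))
  rw [sum_congr rfl h2, sum_const, card_powersetCard, Finset.card_univ, Fintype.card_fin,
    smul_eq_mul, mul_comm] at h1
  exact h1

theorem num_ge {n : ℕ} (k : ℕ) (I : Finset (Fin n)) (h : I.card = n - k) :
    (n.factorial : ℝ) / n.choose (n / 2) ≤ num k I := by
  have h1 := num_mul k I h
  have h2 : n.choose (n - k) ≤ n.choose (n / 2) := Nat.choose_le_middle _ _
  have h3 : 0 < n.choose (n / 2) := Nat.choose_pos (Nat.div_le_self _ _)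
  rw [div_le_iff₀ (by exact_mod_cast h3)]
  have h4 : n.factorial ≤ num k I * n.choose (n / 2) := by
    rw [← h1]; exact Nat.mul_le_mul_left _ h2
  exact_mod_cast h4

/-- some chain carries its share of the weight -/
theorem exists_chain {n : ℕ} (w : Finset (Fin n) → ℝ) (hw : ∀ I, 0 ≤ w I) :
    ∃ σ : Equiv.Perm (Fin n),
      1 / (n.choose (n / 2) : ℝ) * ∑ I ∈ univ.filter (fun I : Finset (Fin n) =>
        1 ≤ I.card ∧ I.card + 2 ≤ n), w I ≤ ∑ k ∈ Icc 2 (n - 1), w (tail σ k) := by
  classical
  by_contra hcon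
  push Not at hcon
  set W := ∑ I ∈ univ.filter (fun I : Finset (Fin n) => 1 ≤ I.card ∧ I.card + 2 ≤ n), w I with hW
  have h1 : ∑ σ : Equiv.Perm (Fin n), ∑ k ∈ Icc 2 (n - 1), w (tail σ k) <
      ∑ _σ : Equiv.Perm (Fin n), 1 / (n.choose (n / 2) : ℝ) * W :=
    sum_lt_sum_of_nonempty univ_nonempty fun σ _ => hcon σ
  rw [sum_const, Finset.card_univ, Fintype.card_perm, Fintype.card_fin, nsmul_eq_mul, sum_comm] at h1
  have h2 : ∀ k ∈ Icc 2 (n - 1), (n.factorial : ℝ) / n.choose (n / 2) *
      ∑ I ∈ powersetCard (n - k) (univ : Finset (Fin n)), w I ≤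
      ∑ σ : Equiv.Perm (Fin n), w (tail σ k) := by
    intro k _
    have h3 : ∑ σ : Equiv.Perm (Fin n), w (tail σ k) =
        ∑ I ∈ powersetCard (n - k) (univ : Finset (Fin n)), (num k I : ℝ) * w I := by
      rw [← sum_fiberwise_of_maps_to (s := univ) (t := powersetCard (n - k) (univ : Finset (Fin n)))
        (g := fun σ : Equiv.Perm (Fin n) => tail σ k)]
      · refine sum_congr rfl fun I _ => ?_
        unfold num
        rw [sum_congr rfl (g := fun _ => w I), sum_const, nsmul_eq_mul]
        intro σ hσ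
        rw [(mem_filter.1 hσ).2]
      · intro σ _
        rw [mem_powersetCard]
        exact ⟨subset_univ _, card_tail σ k⟩
    rw [h3, mul_sum]
    refine sum_le_sum fun I hI => mul_le_mul_of_nonneg_right ?_ (hw I)
    exact num_ge k I (mem_powersetCard.1 hI).2
  have h4 := sum_le_sum h2
  rw [← mul_sum] at h4
  have h5 : ∑ k ∈ Icc 2 (n - 1), ∑ I ∈ powersetCard (n - k) (univ : Finset (Fin n)), w I = W := by
    rw [hW, ← sum_fiberwise_of_maps_to (s := univ.filter (fun I : Finset (Fin n) =>
      1 ≤ I.card ∧ I.card + 2 ≤ n)) (t := Icc 2 (n - 1)) (g := fun I => n - I.card)]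
    · refine sum_congr rfl fun k hk => ?_
      rw [mem_Icc] at hk
      refine sum_congr ?_ fun _ _ => rfl
      ext I
      have h6 : I.card ≤ n := by simpa using card_le_univ I
      simp only [mem_powersetCard, subset_univ, true_and, mem_filter, mem_univ]
      omega
    · intro I hI
      simp only [mem_filter, mem_univ, true_and] at hI
      rw [mem_Icc]
      omega
  rw [h5] at h4
  have h6 : (n.factorial : ℝ) / n.choose (n / 2) * W = (n.factorial : ℝ) * (1 / n.choose (n / 2) * W) := by
    ring
  rw [h6] at h4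
  exact absurd h1 (not_lt.2 h4)

end Pool.Agent.Helper54.NT
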