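import Pool.Agent.Helper54.NT.Cnt
import Pool.Agent.Helper54.NT.Perm

/-! Zero-sum vectors over a number field: reconstruction along a chain. -/

set_option autoImplicit false
set_option linter.unusedSectionVars false

namespace Pool.Agent.Helper54.NT

open NumberField IsDedekindDomain Finset Height Pool.Agent.H691R3 Pool.Agent.W223.AK

variable {K : Type} [Field K] [NumberField K] {n : ℕ}

open Classical in
/-- the indices at which the absolute value is not maximal -/
noncomputable def T (x : Fin n → K) (v : Pr K) : Finset (Fin n) :=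
  univ.filter fun i => ∃ j, fv v (x i) < fv v (x j)

theorem mem_T (x : Fin n → K) (v : Pr K) (i : Fin n) :
    i ∈ T x v ↔ ∃ j, fv v (x i) < fv v (x j) := by simp [T]

/-- zero-sum vectors without vanishing subsums -/
structure Good (x : Fin n → K) : Prop where
  sum : ∑ i, x i = 0
  nvs : ∀ I : Finset (Fin n), I.Nonempty → I ≠ univ → ∑ i ∈ I, x i ≠ 0

theorem Good.ne {x : Fin n → K} (h : Good x) (hn : 2 ≤ n) (i : Fin n) : x i ≠ 0 := by
  have := h.nvs {i} (singleton_nonempty i) (by
    intro hh
    have := congrArg Finset.card hh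
    rw [card_singleton, Finset.card_univ, Fintype.card_fin] at this
    omega)
  simpa using this

theorem fv_sum_lt {ι : Type} (v : Pr K) (s : Finset ι) (f : ι → K) (M : ℝ) (hM : 0 < M)
    (h : ∀ i ∈ s, fv v (f i) < M) : fv v (∑ i ∈ s, f i) < M := by
  classical
  induction s using Finset.induction_on with
  | empty => simpa using hM
  | insert a s ha ih =>
    rw [sum_insert ha]
    refine lt_of_le_of_lt (fv_na v _ _) (max_lt (h a (mem_insert_self _ _)) ?_)
    exact ih fun i hi => h i (mem_insert_of_mem hi)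

/-- the set of nonmaximal indices misses at least two indices -/
theorem card_T {x : Fin n → K} (h : Good x) (hn : 2 ≤ n) (v : Pr K) : (T x v).card + 2 ≤ n := by
  classical
  have : Nonempty (Fin n) := ⟨⟨0, by omega⟩⟩
  obtain ⟨a, ha⟩ := Finite.exists_max fun i => fv v (x i)
  have haT : a ∉ T x v := by
    rw [mem_T]; rintro ⟨j, hj⟩; exact absurd (ha j) (not_le.2 hj)
  obtain ⟨b, hba, hb⟩ : ∃ b, b ≠ a ∧ b ∉ T x v := by
    by_contra hcon
    push Not at hcon
    have h1 : fv v (∑ i ∈ univ.erase a, x i) < fv v (x a) := by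
      refine fv_sum_lt v _ _ _ ((fv v).pos (h.ne hn a)) fun i hi => ?_
      obtain ⟨j, hj⟩ := (mem_T x v i).1 (hcon i (ne_of_mem_erase hi))
      exact lt_of_lt_of_le hj (ha j)
    have h2 : ∑ i ∈ univ.erase a, x i = -x a := by
      have := add_sum_erase univ x (mem_univ a)
      rw [h.sum] at this
      linear_combination this
    rw [h2, (fv v).map_neg] at h1
    exact lt_irrefl _ h1
  have h3 : T x v ⊆ (univ.erase a).erase b := by
    intro i hi
    rw [mem_erase, mem_erase]
    exact ⟨fun hh => hb (hh ▸ hi), fun hh => haT (hh ▸ hi), mem_univ _⟩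
  have h4 := card_le_card h3
  rw [card_erase_of_mem (mem_erase.2 ⟨hba, mem_univ _⟩), card_erase_of_mem (mem_univ _),
    Finset.card_univ, Fintype.card_fin] at h4
  omega

theorem sum_biUnion_le' {α β : Type} [DecidableEq α] [DecidableEq β] (s : Finset α)
    (P : α → Finset β) (f : β → ℝ) (hf : ∀ b, 0 ≤ f b) :
    ∑ b ∈ s.biUnion P, f b ≤ ∑ a ∈ s, ∑ b ∈ P a, f b := by
  induction s using Finset.induction_on with
  | empty => simp
  | insert a s ha ih =>
    rw [biUnion_insert, sum_insert ha]
    have h1 := sum_union_inter (s₁ := P a) (s₂ := s.biUnion P) (f := f)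
    have h2 : 0 ≤ ∑ b ∈ P a ∩ s.biUnion P, f b := sum_nonneg fun b _ => hf b
    linarith

/-- the chain of `σ` -/
def chain (σ : Equiv.Perm (Fin n)) : Finset (Finset (Fin n)) := (Icc 2 (n - 1)).image (tail σ)

theorem height_ratio (x : Fin n → K) (i j : Fin n) : logHeight₁ (x i / x j) ≤ logHeight x := by
  rw [logHeight₁_div_eq_logHeight]
  have h1 : (![x i, x j] : Fin 2 → K) = x ∘ ![i, j] := by
    ext k; fin_cases k <;> rfl
  rw [h1]
  exact logHeight_comp_le _ _

theorem height_sum (x : Fin n → K) (a : Fin n) (J : Finset (Fin n)) {B : ℝ} (hB : logHeight x ≤ B) :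
    logHeight₁ (∑ i ∈ J, x i / x a) ≤ Module.finrank ℚ K * Real.log n + n * B := by
  have h0 := logHeight_nonneg x
  have h1 := logHeight₁_sum_le J fun i => x i / x a
  have h2 : ∑ i ∈ J, logHeight₁ (x i / x a) ≤ n * B := by
    calc ∑ i ∈ J, logHeight₁ (x i / x a) ≤ ∑ i ∈ J, B :=
          sum_le_sum fun i _ => (height_ratio x i a).trans hB
      _ = J.card * B := by rw [sum_const, nsmul_eq_mul]
      _ ≤ n * B := by
          refine mul_le_mul_of_nonneg_right ?_ (h0.trans hB)
          have := card_le_univ J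
          rw [Fintype.card_fin] at this
          exact_mod_cast this
  have h3 : (totalWeight K : ℝ) * Real.log J.card ≤ Module.finrank ℚ K * Real.log n := by
    rw [NumberField.totalWeight_eq_finrank]
    refine mul_le_mul_of_nonneg_left ?_ (Nat.cast_nonneg _)
    rcases J.eq_empty_or_nonempty with rfl | hne
    · simp only [card_empty, Nat.cast_zero, Real.log_zero]
      exact Real.log_natCast_nonneg n
    · refine Real.log_le_log (by exact_mod_cast hne.card_pos) ?_
      have := card_le_univ J
      rw [Fintype.card_fin] at this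
      exact_mod_cast this
  linarith

theorem support_step {x : Fin n → K} (h : Good x) (hn : 2 ≤ n) (σ : Equiv.Perm (Fin n))
    (U : Finset (Pr K)) (hU : ∀ v, T x v ≠ ∅ → T x v ∉ chain σ → v ∈ U) (k : ℕ) (hk : k < n)
    (hk1 : 1 ≤ k) (v : Pr K) (hvU : v ∉ U)
    (hv : ∀ j ∈ Icc 2 k, fv v (∑ i ∈ univ.filter (fun i => (σ.symm i : ℕ) < j),
      x i / x (σ ⟨0, by omega⟩)) = 1) :
    fv v (x (σ ⟨k, hk⟩) / x (σ ⟨0, by omega⟩)) = 1 := by
  classical
  set a := σ ⟨0, by omega⟩ with ha
  set b := σ ⟨k, hk⟩ with hb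
  have hane : 0 < fv v (x a) := (fv v).pos (h.ne hn a)
  rw [map_div₀, div_eq_one_iff_eq hane.ne']
  by_contra hne
  have hmax : ∀ c, c ∉ T x v → ∀ j, fv v (x j) ≤ fv v (x c) := by
    intro c hc j
    by_contra hh
    exact hc ((mem_T x v c).2 ⟨j, not_le.1 hh⟩)
  have hor : a ∈ T x v ∨ b ∈ T x v := by
    by_contra hcon
    push Not at hcon
    exact hne (le_antisymm (hmax a hcon.1 b) (hmax b hcon.2 a))
  have hT : T x v ≠ ∅ := by
    rcases hor with h1 | h1
    · exact ne_empty_of_mem h1
    · exact ne_empty_of_mem h1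
  have hch : T x v ∈ chain σ := by
    by_contra hcon
    exact hvU (hU v hT hcon)
  obtain ⟨j, hj, hjT⟩ := mem_image.1 hch
  rw [mem_Icc] at hj
  have haT : a ∉ T x v := by
    rw [← hjT, mem_tail, ha, Equiv.symm_apply_apply]
    simp only [not_le]
    omega
  have hbT : b ∈ T x v := hor.resolve_left haT
  have hjk : j ≤ k := by
    rw [← hjT, mem_tail, hb, Equiv.symm_apply_apply] at hbT
    exact hbT
  have h1 := hv j (mem_Icc.2 ⟨hj.1, hjk⟩)
  have h2 : ∑ i ∈ univ.filter (fun i => (σ.symm i : ℕ) < j), x i / x a =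
      -∑ i ∈ T x v, x i / x a := by
    have h3 : ∑ i, x i / x a = 0 := by rw [← sum_div, h.sum, zero_div]
    rw [← sum_filter_add_sum_filter_not univ (fun i => (σ.symm i : ℕ) < j)] at h3
    have h4 : (univ.filter fun i => ¬ (σ.symm i : ℕ) < j) = T x v := by
      rw [← hjT]
      ext i
      simp [mem_tail]
    rw [h4] at h3
    linear_combination h3
  rw [h2, (fv v).map_neg] at h1
  have h5 : fv v (∑ i ∈ T x v, x i / x a) < 1 := by
    refine fv_sum_lt v _ _ _ one_pos fun i hi => ?_
    rw [map_div₀, div_lt_one hane]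
    obtain ⟨j', hj'⟩ := (mem_T x v i).1 hi
    exact lt_of_lt_of_le hj' (hmax a haT j')
  linarith

/-- the number of zero-sum vectors with prescribed primes outside a chain -/
theorem fiber (K : Type) [Field K] [NumberField K] (n : ℕ) (hn : 2 ≤ n) (ε : ℝ) (hε : 0 < ε) :
    ∃ D : ℝ, 0 < D ∧ ∀ (B t : ℝ), 0 ≤ B → 0 ≤ t → ∀ (σ : Equiv.Perm (Fin n)) (U : Finset (Pr K)),
      ∑ v ∈ U, Real.log (Nv v) ≤ t → ∀ E : Finset (Fin n → K),
      (∀ x ∈ E, Good x ∧ logHeight x ≤ B ∧ ∀ v, T x v ≠ ∅ → T x v ∉ chain σ → v ∈ U) →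
      (∀ x ∈ E, ∀ y ∈ E, (∀ i j, x i * y j = y i * x j) → x = y) →
      (E.card : ℝ) ≤ D * Real.exp (ε * (B + t)) := by
  classical
  set ε₀ : ℝ := ε / (n * (1 + 2 * n * n)) with hε₀
  have hn0 : (0 : ℝ) < n := by exact_mod_cast (by omega : 0 < n)
  have hε₀pos : 0 < ε₀ := by positivity
  obtain ⟨D₀, hD₀, h₀⟩ := count_supp K ε₀ hε₀pos
  set κ : ℝ := 2 * n * (Module.finrank ℚ K * Real.log n) with hκ
  have hκ0 : 0 ≤ κ := by
    have := Real.log_natCast_nonneg n
    positivity
  refine ⟨(max 1 (D₀ * Real.exp (ε₀ * κ))) ^ n, by positivity, ?_⟩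
  intro B t hB ht σ U hU
  set Q : ℝ := max 1 (D₀ * Real.exp (ε₀ * κ)) * Real.exp (ε₀ * ((1 + 2 * n * n) * (B + t))) with hQ
  have hQ1 : 1 ≤ Q := by
    have h1 : (1 : ℝ) ≤ max 1 (D₀ * Real.exp (ε₀ * κ)) := le_max_left _ _
    have h2 : (1 : ℝ) ≤ Real.exp (ε₀ * ((1 + 2 * n * n) * (B + t))) :=
      Real.one_le_exp (by positivity)
    rw [hQ]; nlinarith
  have key : ∀ (l k : ℕ), 1 ≤ k → k + l = n → ∀ E : Finset (Fin n → K),
      (∀ x ∈ E, Good x ∧ logHeight x ≤ B ∧ ∀ v, T x v ≠ ∅ → T x v ∉ chain σ → v ∈ U) →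
      (∀ x ∈ E, ∀ y ∈ E, (∀ i j, x i * y j = y i * x j) → x = y) →
      (∀ x ∈ E, ∀ y ∈ E, ∀ i, (σ.symm i : ℕ) < k →
        x i / x (σ ⟨0, by omega⟩) = y i / y (σ ⟨0, by omega⟩)) →
      (E.card : ℝ) ≤ Q ^ l := by
    intro l
    induction l with
    | zero =>
      intro k hk hkl E hE hprop hrat
      rw [pow_zero]
      have h1 : E.card ≤ 1 := by
        rw [card_le_one]
        intro x hx y hy
        refine hprop x hx y hy fun i j => ?_
        have hxa := (hE x hx).1.ne hn (σ ⟨0, by omega⟩)
        have hya := (hE y hy).1.ne hn (σ ⟨0, by omega⟩)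
        have h1 := hrat x hx y hy i (by have := (σ.symm i).isLt; omega)
        have h2 := hrat x hx y hy j (by have := (σ.symm j).isLt; omega)
        rw [div_eq_div_iff hxa hya] at h1 h2
        have h3 : x (σ ⟨0, by omega⟩) * y (σ ⟨0, by omega⟩) * (x i * y j - y i * x j) = 0 := by
          linear_combination (x (σ ⟨0, by omega⟩) * y j) * h1 - (x (σ ⟨0, by omega⟩) * y i) * h2
        rcases mul_eq_zero.1 h3 with h4 | h4
        · exact absurd h4 (mul_ne_zero hxa hya)
        · exact sub_eq_zero.1 h4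
      exact_mod_cast h1
    | succ l ih =>
      intro k hk hkl E hE hprop hrat
      rcases E.eq_empty_or_nonempty with rfl | ⟨x₀, hx₀⟩
      · simp only [card_empty, Nat.cast_zero]; positivity
      have hkn : k < n := by omega
      have hx₀g := (hE x₀ hx₀).1
      have hx₀a := hx₀g.ne hn (σ ⟨0, by omega⟩)
      -- the partial sums
      set m : ℕ → K := fun j => ∑ i ∈ univ.filter (fun i => (σ.symm i : ℕ) < j),
        x₀ i / x₀ (σ ⟨0, by omega⟩) with hm
      have hmne : ∀ j ∈ Icc 2 k, m j ≠ 0 := by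
        intro j hj
        rw [mem_Icc] at hj
        simp only [hm]
        rw [← sum_div]
        refine div_ne_zero (hx₀g.nvs _ ?_ ?_) hx₀a
        · exact ⟨σ ⟨0, by omega⟩, by simp; omega⟩
        · intro hh
          have : σ ⟨k, hkn⟩ ∈ univ.filter (fun i => (σ.symm i : ℕ) < j) := by
            rw [hh]; exact mem_univ _
          simp at this
          omega
      set P : ℕ → Finset (Pr K) := fun j => if hj : m j ≠ 0 then sup (m j) hj else ∅ with hP
      set Z : Finset (Pr K) := U ∪ (Icc 2 k).biUnion P with hZ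
      have hZt : ∑ v ∈ Z, Real.log (Nv v) ≤ t + (κ + 2 * n * n * B) := by
        have hpos : ∀ v : Pr K, 0 ≤ Real.log (Nv v) := fun v =>
          le_trans (Real.log_pos (by norm_num)).le (log_Nv_pos v)
        have h1 : ∑ v ∈ Z, Real.log (Nv v) ≤ ∑ v ∈ U, Real.log (Nv v) +
            ∑ v ∈ (Icc 2 k).biUnion P, Real.log (Nv v) := by
          rw [hZ, ← sum_union_inter]
          linarith [sum_nonneg fun v (_ : v ∈ U ∩ (Icc 2 k).biUnion P) => hpos v]
        have h2 : ∑ v ∈ (Icc 2 k).biUnion P, Real.log (Nv v) ≤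
            ∑ j ∈ Icc 2 k, ∑ v ∈ P j, Real.log (Nv v) :=
          sum_biUnion_le' _ _ _ hpos
        have h3 : ∀ j ∈ Icc 2 k, ∑ v ∈ P j, Real.log (Nv v) ≤
            2 * (Module.finrank ℚ K * Real.log n + n * B) := by
          intro j hj
          simp only [hP]
          rw [dif_pos (hmne j hj)]
          refine (sum_sup_le _).trans ?_
          have := height_sum x₀ (σ ⟨0, by omega⟩) (univ.filter (fun i => (σ.symm i : ℕ) < j))
            (hE x₀ hx₀).2.1
          simp only [hm]
          linarith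
        have h4 : ∑ j ∈ Icc 2 k, ∑ v ∈ P j, Real.log (Nv v) ≤
            n * (2 * (Module.finrank ℚ K * Real.log n + n * B)) := by
          refine (sum_le_sum h3).trans ?_
          rw [sum_const, nsmul_eq_mul]
          refine mul_le_mul_of_nonneg_right ?_ ?_
          · rw [Nat.card_Icc]
            exact_mod_cast (by omega : k + 1 - 2 ≤ n)
          · have := Real.log_natCast_nonneg n
            positivity
        rw [hκ]
        linarith
      -- the new ratio
      set u : (Fin n → K) → K := fun x => x (σ ⟨k, hkn⟩) / x (σ ⟨0, by omega⟩) with hu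
      have himg : ((E.image u).card : ℝ) ≤ Q := by
        have h1 := h₀ B (t + (κ + 2 * n * n * B)) Z hB hZt (E.image u) ?_
        · refine h1.trans ?_
          have h2 : ε₀ * (B + (t + (κ + 2 * n * n * B))) ≤
              ε₀ * κ + ε₀ * ((1 + 2 * n * n) * (B + t)) := by
            have : 0 ≤ ε₀ * (2 * n * n * t) := by positivity
            nlinarith
          calc D₀ * Real.exp (ε₀ * (B + (t + (κ + 2 * n * n * B))))
              ≤ D₀ * (Real.exp (ε₀ * κ) * Real.exp (ε₀ * ((1 + 2 * n * n) * (B + t)))) := by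
                rw [← Real.exp_add]
                exact mul_le_mul_of_nonneg_left (Real.exp_le_exp.2 h2) hD₀.le
            _ = (D₀ * Real.exp (ε₀ * κ)) * Real.exp (ε₀ * ((1 + 2 * n * n) * (B + t))) := by ring
            _ ≤ Q := by
                rw [hQ]
                exact mul_le_mul_of_nonneg_right (le_max_right _ _) (Real.exp_pos _).le
        · intro w hw
          obtain ⟨x, hx, rfl⟩ := mem_image.1 hw
          have hxg := (hE x hx).1
          refine ⟨div_ne_zero (hxg.ne hn _) (hxg.ne hn _),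
            (height_ratio x _ _).trans (hE x hx).2.1, ?_⟩
          intro v hv
          refine support_step hxg hn σ U (hE x hx).2.2 k hkn hk v
            (fun hh => hv (mem_union_left _ hh)) ?_
          intro j hj
          have h3 : ∑ i ∈ univ.filter (fun i => (σ.symm i : ℕ) < j),
              x i / x (σ ⟨0, by omega⟩) = m j := by
            simp only [hm]
            refine sum_congr rfl fun i hi => ?_
            rw [mem_filter] at hi
            rw [mem_Icc] at hj
            exact hrat x hx x₀ hx₀ i (by omega)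
          rw [h3]
          by_contra hcon
          refine hv (mem_union_right _ (mem_biUnion.2 ⟨j, hj, ?_⟩))
          simp only [hP]
          rw [dif_pos (hmne j hj), mem_sup]
          exact hcon
      have hfib : ∀ w ∈ E.image u, ((E.filter fun x => u x = w).card : ℝ) ≤ Q ^ l := by
        intro w _
        refine ih (k + 1) (by omega) (by omega) _ ?_ ?_ ?_
        · intro x hx; exact hE x (mem_filter.1 hx).1
        · intro x hx y hy; exact hprop x (mem_filter.1 hx).1 y (mem_filter.1 hy).1
        · intro x hx y hy i hi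
          rw [mem_filter] at hx hy
          rcases lt_or_eq_of_le (Nat.lt_succ_iff.1 hi) with h1 | h1
          · exact hrat x hx.1 y hy.1 i h1
          · have h2 : i = σ ⟨k, hkn⟩ := by
              rw [← Equiv.symm_apply_eq]
              exact Fin.ext h1
            rw [h2]
            exact hx.2.trans hy.2.symm
      have h1 : (E.card : ℝ) = ∑ w ∈ E.image u, ((E.filter fun x => u x = w).card : ℝ) := by
        exact_mod_cast card_eq_sum_card_image u E
      rw [h1]
      refine (sum_le_sum hfib).trans ?_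
      rw [sum_const, nsmul_eq_mul, pow_succ, mul_comm (Q ^ l)]
      exact mul_le_mul_of_nonneg_right himg (by positivity)
  intro E hE hprop
  have h1 := key (n - 1) 1 le_rfl (by omega) E hE hprop (by
    intro x hx y hy i hi
    have h2 : i = σ ⟨0, by omega⟩ := by
      rw [← Equiv.symm_apply_eq]
      exact Fin.ext (by simpa using hi)
    rw [h2, div_self ((hE x hx).1.ne hn _), div_self ((hE y hy).1.ne hn _)])
  refine h1.trans ((pow_le_pow_right₀ hQ1 (by omega : n - 1 ≤ n)).trans (le_of_eq ?_))
  rw [hQ, mul_pow, ← Real.exp_nat_mul]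
  congr 2
  rw [hε₀]
  field_simp

end Pool.Agent.Helper54.NT
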