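import Pool.Agent.Helper54.NT.Brg
import Pool.Agent.Helper54.NT.Cop

/-! Heights and radicals of rational points. -/

set_option autoImplicit false
set_option linter.unusedSectionVars false

namespace Pool.Agent.Helper54.NT

open NumberField IsDedekindDomain Finset Height Pool.Agent.H691R3 Pool.Agent.W223.AK

theorem ht_int_le {n : ℕ} (w : Fin n → ℤ) (i₀ : Fin n) (hw : w i₀ ≠ 0) (M : ℕ)
    (hM : ∀ i, |w i| ≤ M) : logHeight (fun i => (w i : ℚ)) ≤ Real.log M := by
  have : Nonempty (Fin n) := ⟨i₀⟩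
  obtain ⟨g, hg, hg1⟩ := Finset.extract_gcd w (univ_nonempty (α := Fin n))
  set d := univ.gcd w with hd
  have hd0 : d ≠ 0 := by
    intro h
    exact hw (by rw [hg i₀ (mem_univ _), h, zero_mul])
  have h1 : (fun i => (w i : ℚ)) = (d : ℚ) • (((↑) : ℤ → ℚ) ∘ g) := by
    funext i
    rw [Pi.smul_apply, Function.comp_apply, smul_eq_mul, hg i (mem_univ _)]
    push_cast
    rfl
  rw [h1, logHeight_smul_eq_logHeight _ (by exact_mod_cast hd0),
    Rat.logHeight_eq_max_abs_of_gcd_eq_one hg1]
  have h2 : ∀ i, |g i| ≤ M := by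
    intro i
    refine le_trans ?_ (hM i)
    rw [hg i (mem_univ _), abs_mul]
    exact le_mul_of_one_le_left (abs_nonneg _) (Int.one_le_abs hd0)
  have h3 : (⨆ i, |g i|) ≤ M := ciSup_le h2
  obtain ⟨i, hi⟩ := exists_eq_ciSup_of_finite (f := fun i => |g i|)
  have h5 : 0 ≤ ⨆ i, |g i| := by rw [← hi]; exact abs_nonneg _
  rcases h5.lt_or_eq with h6 | h6
  · refine Real.log_le_log (by exact_mod_cast h6) ?_
    exact_mod_cast h3
  · rw [← h6, Int.cast_zero, Real.log_zero]
    exact Real.log_natCast_nonneg M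

theorem ht_coprime (y S : ℕ) (hy : 0 < y) (hyS : y ≤ S) (h : Nat.Coprime S y) :
    logHeight₁ ((y : ℚ) / S) = Real.log S := by
  have hS : 0 < S := lt_of_lt_of_le hy hyS
  rw [Rat.logHeight₁_eq_log_max]
  have h1 : ((y : ℚ) / S).num = y := by
    have := Rat.num_div_eq_of_coprime (a := (y : ℤ)) (b := (S : ℤ)) (by exact_mod_cast hS)
      (by simpa using h.symm)
    rwa [Int.cast_natCast, Int.cast_natCast] at this
  have h2 : (((y : ℚ) / S).den : ℤ) = S := by
    have := Rat.den_div_eq_of_coprime (a := (y : ℤ)) (b := (S : ℤ)) (by exact_mod_cast hS)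
      (by simpa using h.symm)
    rwa [Int.cast_natCast, Int.cast_natCast] at this
  have h3 : ((y : ℚ) / S).den = S := by exact_mod_cast h2
  rw [h1, h3]
  congr 2
  rw [Int.natAbs_natCast]
  exact max_eq_right hyS

theorem fv_nat_le (v : Pr ℚ) (a : ℕ) : fv v (a : ℚ) ≤ 1 := by
  have := fv_int_le_one v (a : 𝓞 ℚ)
  simpa using this

/-- the radical is at most the logarithm of an integer with all its primes -/
theorem radset_le {n : ℕ} {z : Fin n → ℚ} (h : Good z) (hn : 2 ≤ n) (a : ℕ) (ha : 0 < a)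
    (hT : ∀ v : Pr ℚ, fv v (a : ℚ) = 1 → T z v = ∅) :
    ∑ v ∈ radset h hn, Real.log (Nv v) ≤ Real.log a := by
  classical
  have ha0 : (a : ℚ) ≠ 0 := by exact_mod_cast ha.ne'
  have h1 := log_product_formula (K := ℚ) ha0
  have h2 : ∑ w : InfinitePlace ℚ, (w.mult : ℝ) * Real.log (w (a : ℚ)) = Real.log a := by
    have h3 : ∀ w : InfinitePlace ℚ, w (a : ℚ) = (a : ℝ) := by
      intro w
      rw [Rat.infinitePlace_apply]
      simp
    simp only [h3]
    rw [← Finset.sum_mul]
    have h4 := InfinitePlace.sum_mult_eq (K := ℚ)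
    rw [Module.finrank_self] at h4
    have h5 : ∑ w : InfinitePlace ℚ, (w.mult : ℝ) = 1 := by exact_mod_cast h4
    rw [h5, one_mul]
  rw [h2] at h1
  have hneg : ∀ v : Pr ℚ, 0 ≤ -Real.log (fv v (a : ℚ)) := by
    intro v
    have := Real.log_nonpos ((fv v).nonneg _) (fv_nat_le v a)
    linarith
  have h3 : ∑ᶠ v : HeightOneSpectrum (𝓞 ℚ), -Real.log (fv v (a : ℚ)) = Real.log a := by
    rw [finsum_neg_distrib]
    linarith
  have h4 : ∑ v ∈ radset h hn, Real.log (Nv v) ≤
      ∑ v ∈ radset h hn, -Real.log (fv v (a : ℚ)) := by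
    refine Finset.sum_le_sum fun v hv => ?_
    rw [mem_radset] at hv
    obtain ⟨k, hk⟩ := log_fv v ha0
    have h5 := log_Nv_pos v
    have h6 := Real.log_pos (by norm_num : (1 : ℝ) < 2)
    have h7 : Real.log (fv v (a : ℚ)) < 0 := by
      refine Real.log_neg ((fv v).pos ha0) (lt_of_le_of_ne (fv_nat_le v a) ?_)
      intro hh
      exact hv (hT v hh)
    rw [hk] at h7 ⊢
    have h8 : k < 0 := by
      by_contra hh
      push Not at hh
      have : (0 : ℝ) ≤ (k : ℝ) := by exact_mod_cast hh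
      have : 0 ≤ (k : ℝ) * Real.log (Nv v) := mul_nonneg this (by linarith)
      linarith
    have h9 : (k : ℝ) ≤ -1 := by exact_mod_cast (by omega : k ≤ -1)
    nlinarith
  refine h4.trans ?_
  rw [← h3]
  have hfin : (Function.support fun v : HeightOneSpectrum (𝓞 ℚ) =>
      -Real.log (fv v (a : ℚ))).Finite := by
    refine (log_fv_support_finite ha0).subset ?_
    intro v hv
    rw [Function.mem_support] at hv ⊢
    exact fun hh => hv (by rw [hh, neg_zero])
  rw [finsum_eq_sum_of_support_subset (s := radset h hn ∪ hfin.toFinset) _ (by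
    intro v hv
    simp only [Finset.coe_union, Set.Finite.coe_toFinset]
    exact Or.inr hv)]
  exact Finset.sum_le_sum_of_subset_of_nonneg Finset.subset_union_left (fun v _ _ => hneg v)

end Pool.Agent.Helper54.NT
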