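import Pool.Agent.Helper54.NT.Fam

/-! Many exceptions from polynomial identities. -/

set_option autoImplicit false
set_option linter.unusedSectionVars false

namespace Pool.Agent.Helper54.NT

open NumberField IsDedekindDomain Finset Height Pool.Agent.H691R3 Pool.Agent.W223.AK

/-- the tuple with sum `g.1` -/
def tup {k : ℕ} (g : ℕ × ℕ) (u : Fin k → ℕ) : Fin (k + 2) → ℕ :=
  Fin.cons (g.1 - g.2 - ∑ i, u i) (Fin.cons g.2 u)

/-- an identity of degree `k + 3` in `k + 2` variables -/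
structure Fam (k N : ℕ) (t : (Fin (k + 2) → ℕ) → ℕ → ℕ) (R : ℕ) (ix : Fin (k + 2) → ℕ) : Prop where
  R_pos : 0 < R
  inj : Function.Injective ix
  lt : ∀ i, ix i < N
  sum : ∀ x, ∑ j ∈ range N, t x j = (∑ i, x i) ^ (k + 3)
  pow : ∀ x i, t x (ix i) = (x i) ^ (k + 3)
  pos : ∀ x, (∀ i, 0 < x i) → ∀ j < N, 0 < t x j
  div : ∀ x, ∀ j < N, ∃ e, t x j ∣ (R * ((∏ i, x i) * (∑ i, x i))) ^ e

/-- the parameters -/
def par (k Y M : ℕ) : Finset ((ℕ × ℕ) × (Fin k → ℕ)) :=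
  (cop M Y) ×ˢ (Fintype.piFinset fun _ : Fin k => Ioc 0 (M / (2 * (k + 1))))

/-- the point -/
noncomputable def pt {k : ℕ} (N K : ℕ) (t : (Fin (k + 2) → ℕ) → ℕ → ℕ) (ix : Fin (k + 2) → ℕ)
    (p : (ℕ × ℕ) × (Fin k → ℕ)) : Fin (1 + N + K) → ℚ :=
  fun i => zn N K (ix 0) (p.1.1 ^ (k + 3)) (t (tup p.1 p.2)) (i : ℕ)

theorem par_prop {k Y M : ℕ} (hY : 2 * Y ≤ M) {p : (ℕ × ℕ) × (Fin k → ℕ)} (hp : p ∈ par k Y M) :
    M < p.1.1 ∧ p.1.1 ≤ 2 * M ∧ 0 < p.1.2 ∧ p.1.2 ≤ Y ∧ Nat.Coprime p.1.1 p.1.2 ∧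
    (∀ i, 0 < p.2 i) ∧ ∑ i, p.2 i + p.1.2 < p.1.1 := by
  unfold par cop at hp
  rw [mem_product, mem_filter, mem_product, mem_Ioc, mem_Ioc, Fintype.mem_piFinset] at hp
  obtain ⟨⟨⟨⟨h1, h2⟩, h3, h4⟩, h5⟩, h6⟩ := hp
  have h8 : ∑ i, p.2 i ≤ k * (M / (2 * (k + 1))) := by
    calc ∑ i, p.2 i ≤ ∑ _i : Fin k, M / (2 * (k + 1)) :=
          sum_le_sum fun i _ => (mem_Ioc.1 (h6 i)).2
      _ = k * (M / (2 * (k + 1))) := by simp
  have h9 : (2 * (k + 1)) * (M / (2 * (k + 1))) ≤ M := Nat.mul_div_le _ _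
  refine ⟨h1, h2, h3, h4, h5, fun i => (mem_Ioc.1 (h6 i)).1, ?_⟩
  have h10 : 2 * p.1.2 ≤ M := by omega
  have h11 : 2 * (k * (M / (2 * (k + 1)))) ≤ M := by nlinarith
  omega

theorem tup_sum {k : ℕ} (g : ℕ × ℕ) (u : Fin k → ℕ) (h : ∑ i, u i + g.2 < g.1) :
    ∑ i, tup g u i = g.1 := by
  unfold tup
  rw [Fin.sum_cons, Fin.sum_cons]
  omega

theorem tup_prod {k : ℕ} (g : ℕ × ℕ) (u : Fin k → ℕ) :
    ∏ i, tup g u i = (g.1 - g.2 - ∑ i, u i) * (g.2 * ∏ i, u i) := by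
  unfold tup
  rw [Fin.prod_cons, Fin.prod_cons]

theorem tup_pos {k : ℕ} (g : ℕ × ℕ) (u : Fin k → ℕ) (h : ∑ i, u i + g.2 < g.1) (hg : 0 < g.2)
    (hu : ∀ i, 0 < u i) : ∀ i, 0 < tup g u i := by
  intro i
  unfold tup
  refine Fin.cases ?_ (fun j => ?_) i
  · rw [Fin.cons_zero]; omega
  · rw [Fin.cons_succ]
    refine Fin.cases ?_ (fun l => ?_) j
    · rwa [Fin.cons_zero]
    · rw [Fin.cons_succ]; exact hu l

theorem pt_value {k N K R : ℕ} {t : (Fin (k + 2) → ℕ) → ℕ → ℕ} {ix : Fin (k + 2) → ℕ}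
    (hF : Fam k N t R ix) (p : (ℕ × ℕ) × (Fin k → ℕ))
    (i : Fin (k + 2)) (hi : i ≠ 0) :
    zn N K (ix 0) (p.1.1 ^ (k + 3)) (t (tup p.1 p.2)) (ix i + 1) =
      -((tup p.1 p.2 i : ℚ) / (p.1.1 : ℚ)) ^ (k + 3) := by
  have h1 := hF.lt i
  unfold zn
  rw [if_neg (by omega), if_pos (by omega), Nat.add_sub_cancel, if_neg (fun h => hi (hF.inj h)),
    hF.pow]
  push_cast
  rw [div_pow]
  ring

theorem pt_good {k N K R Y M : ℕ} {t : (Fin (k + 2) → ℕ) → ℕ → ℕ} {ix : Fin (k + 2) → ℕ}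
    (hF : Fam k N t R ix) (hY : 2 * Y ≤ M) {p : (ℕ × ℕ) × (Fin k → ℕ)} (hp : p ∈ par k Y M) :
    Good (pt N K t ix p) := by
  obtain ⟨h1, h2, h3, h4, h5, h6, h7⟩ := par_prop hY hp
  have hP : 0 < p.1.1 ^ (k + 3) := by
    have : 0 < p.1.1 := by omega
    positivity
  have hsum := hF.sum (tup p.1 p.2)
  rw [tup_sum _ _ h7] at hsum
  have hpos := hF.pos (tup p.1 p.2) (tup_pos _ _ h7 h3 h6)
  have key : ∀ (n : ℕ) (e : 1 + N + K = n + 1), Good (pt N K t ix p) := by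
    intro n e
    have hz := zn_sum (K := K) hP (hF.lt 0) hsum
    have hn : ∀ i : Fin (1 + N + K), (i : ℕ) ≠ 0 → pt N K t ix p i < 0 := fun i hi =>
      zn_neg hP (hF.lt 0) hpos hi
    have hz' : ∑ i, pt N K t ix p i = 0 := hz
    revert hz' hn
    generalize pt N K t ix p = z
    revert z
    rw [e]
    intro z hn hz'
    exact good_of_neg z (fun i hi => hn i (fun hh => hi (Fin.ext hh))) hz'
  exact key (N + K) (by omega)

theorem pt_height_le {k N K R Y M : ℕ} {t : (Fin (k + 2) → ℕ) → ℕ → ℕ} {ix : Fin (k + 2) → ℕ}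
    (hF : Fam k N t R ix) (hY : 2 * Y ≤ M) {p : (ℕ × ℕ) × (Fin k → ℕ)} (hp : p ∈ par k Y M) :
    logHeight (pt N K t ix p) ≤ Real.log ((2 ^ K * (2 * M) ^ (k + 3) : ℕ) : ℝ) := by
  obtain ⟨h1, h2, h3, h4, h5, h6, h7⟩ := par_prop hY hp
  have hP : 0 < p.1.1 ^ (k + 3) := by
    have : 0 < p.1.1 := by omega
    positivity
  have hsum := hF.sum (tup p.1 p.2)
  rw [tup_sum _ _ h7] at hsum
  refine (zn_height (K := K) hP (hF.lt 0) hsum).trans ?_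
  refine Real.log_le_log (by positivity) ?_
  exact_mod_cast Nat.mul_le_mul_left _ (Nat.pow_le_pow_left h2 _)

theorem pt_height_ge {k N K R Y M : ℕ} {t : (Fin (k + 2) → ℕ) → ℕ → ℕ} {ix : Fin (k + 2) → ℕ}
    (hF : Fam k N t R ix) (hY : 2 * Y ≤ M) {p : (ℕ × ℕ) × (Fin k → ℕ)} (hp : p ∈ par k Y M) :
    (k + 3 : ℕ) * Real.log p.1.1 ≤ logHeight (pt N K t ix p) := by
  obtain ⟨h1, h2, h3, h4, h5, h6, h7⟩ := par_prop hY hp
  have hlt := hF.lt 1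
  refine le_trans (le_of_eq ?_) (height_ratio (pt N K t ix p) ⟨ix 1 + 1, by omega⟩ ⟨0, by omega⟩)
  have h8 : pt N K t ix p ⟨ix 1 + 1, by omega⟩ = -((p.1.2 : ℚ) / (p.1.1 : ℚ)) ^ (k + 3) := by
    have := pt_value (K := K) hF p 1 (by simp)
    have h9 : tup p.1 p.2 1 = p.1.2 := rfl
    rw [h9] at this
    exact this
  have h9 : pt N K t ix p ⟨0, by omega⟩ = 1 := by
    unfold pt zn
    rw [if_pos rfl]
  rw [h8, h9, div_one, logHeight₁_neg, logHeight₁_pow, ht_coprime _ _ h3 (by omega) h5]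

theorem pt_radical {k N K R Y M : ℕ} {t : (Fin (k + 2) → ℕ) → ℕ → ℕ} {ix : Fin (k + 2) → ℕ}
    (hF : Fam k N t R ix) (hY : 2 * Y ≤ M) {p : (ℕ × ℕ) × (Fin k → ℕ)} (hp : p ∈ par k Y M)
    (hn : 2 ≤ 1 + N + K) (h : Good (pt N K t ix p)) :
    ∑ v ∈ radset h hn, Real.log (Nv v) ≤
      Real.log (2 * R) + Real.log Y + (k + 2 : ℕ) * Real.log p.1.1 := by
  obtain ⟨h1, h2, h3, h4, h5, h6, h7⟩ := par_prop hY hp
  have hR := hF.R_pos
  have hS0 : 0 < p.1.1 := by omega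
  have hY0 : 0 < Y := by omega
  set b := R * ((∏ i, tup p.1 p.2 i) * (∑ i, tup p.1 p.2 i)) with hb
  have hxpos := tup_pos _ _ h7 h3 h6
  have hb0 : 0 < b := by
    rw [hb]
    refine Nat.mul_pos hR (Nat.mul_pos (prod_pos fun i _ => hxpos i) ?_)
    rw [tup_sum _ _ h7]; exact hS0
  have hrad := radset_le h hn (2 * b) (by omega) (by
    intro v hv
    rw [T_empty_iff]
    have hall : ∀ i, fv v (pt N K t ix p i) = 1 := by
      intro i
      unfold pt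
      refine zn_unit (hF.lt 0) (hF.div (tup p.1 p.2)) ⟨k + 3, ?_⟩ v hv i
      refine pow_dvd_pow_of_dvd ?_ _
      rw [tup_sum _ _ h7]
      exact Dvd.dvd.mul_left (Dvd.intro_left _ rfl) _
    intro i j
    rw [hall i, hall j])
  have hbound : 2 * b ≤ 2 * R * Y * p.1.1 ^ (k + 2) := by
    have h8 : ∏ i, p.2 i ≤ p.1.1 ^ k := by
      calc ∏ i, p.2 i ≤ ∏ _i : Fin k, p.1.1 := by
            refine prod_le_prod' fun i _ => ?_
            have := single_le_sum (f := p.2) (fun i _ => Nat.zero_le _) (mem_univ i)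
            omega
        _ = p.1.1 ^ k := by simp
    rw [hb, tup_sum _ _ h7, tup_prod]
    have h9 : p.1.1 - p.1.2 - ∑ i, p.2 i ≤ p.1.1 := by omega
    calc 2 * (R * ((p.1.1 - p.1.2 - ∑ i, p.2 i) * (p.1.2 * ∏ i, p.2 i) * p.1.1))
        = 2 * R * ((p.1.1 - p.1.2 - ∑ i, p.2 i) * p.1.2 * (∏ i, p.2 i) * p.1.1) := by ring
      _ ≤ 2 * R * (p.1.1 * Y * p.1.1 ^ k * p.1.1) := by
          refine Nat.mul_le_mul_left _ ?_
          gcongr
      _ = 2 * R * Y * p.1.1 ^ (k + 2) := by ring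
  have h8 : Real.log ((2 * b : ℕ) : ℝ) ≤ Real.log ((2 * R * Y * p.1.1 ^ (k + 2) : ℕ) : ℝ) := by
    refine Real.log_le_log ?_ (by exact_mod_cast hbound)
    have : 0 < 2 * b := by positivity
    exact_mod_cast this
  rw [Nat.cast_mul (2 * R * Y), Real.log_mul (by positivity) (by positivity),
    Nat.cast_mul (2 * R), Real.log_mul (by positivity) (by positivity),
    Nat.cast_pow, Real.log_pow, Nat.cast_mul 2 R, Nat.cast_ofNat] at h8
  linarith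

end Pool.Agent.Helper54.NT
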