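import Pool.Agent.Helper54.NT.LowM

/-! Counting the points from polynomial identities. -/

set_option autoImplicit false
set_option linter.unusedSectionVars false

namespace Pool.Agent.Helper54.NT

open NumberField IsDedekindDomain Finset Height Pool.Agent.H691R3 Pool.Agent.W223.AK

theorem pt_inj {k N K R Y M : ℕ} {t : (Fin (k + 2) → ℕ) → ℕ → ℕ} {ix : Fin (k + 2) → ℕ}
    (hF : Fam k N t R ix) (hY : 2 * Y ≤ M) :
    Set.InjOn (pt N K t ix) (par k Y M : Finset ((ℕ × ℕ) × (Fin k → ℕ))) := by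
  intro p hp q hq hpq
  rw [mem_coe] at hp hq
  obtain ⟨h1, h2, h3, h4, h5, h6, h7⟩ := par_prop hY hp
  obtain ⟨g1, g2, g3, g4, g5, g6, g7⟩ := par_prop hY hq
  have hval : ∀ i : Fin (k + 2), i ≠ 0 →
      (tup p.1 p.2 i : ℚ) / (p.1.1 : ℚ) = (tup q.1 q.2 i : ℚ) / (q.1.1 : ℚ) := by
    intro i hi
    have hlt := hF.lt i
    have e1 := pt_value (K := K) hF p i hi
    have e2 := pt_value (K := K) hF q i hi
    have e3 := congrFun hpq ⟨ix i + 1, by omega⟩
    have e4 : zn N K (ix 0) (p.1.1 ^ (k + 3)) (t (tup p.1 p.2)) (ix i + 1) =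
        zn N K (ix 0) (q.1.1 ^ (k + 3)) (t (tup q.1 q.2)) (ix i + 1) := e3
    rw [e1, e2, neg_inj] at e4
    exact (pow_left_inj₀ (by positivity) (by positivity) (by omega)).1 e4
  have hy := hval 1 (by simp)
  have hy1 : tup p.1 p.2 1 = p.1.2 := rfl
  have hy2 : tup q.1 q.2 1 = q.1.2 := rfl
  rw [hy1, hy2] at hy
  have hS : p.1.1 = q.1.1 := by
    have e1 := ht_coprime p.1.2 p.1.1 h3 (by omega) h5
    have e2 := ht_coprime q.1.2 q.1.1 g3 (by omega) g5
    rw [hy, e2] at e1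
    have hp0 : (0 : ℝ) < p.1.1 := by exact_mod_cast (by omega : 0 < p.1.1)
    have hq0 : (0 : ℝ) < q.1.1 := by exact_mod_cast (by omega : 0 < q.1.1)
    have := Real.log_injOn_pos (Set.mem_Ioi.2 hq0) (Set.mem_Ioi.2 hp0) e1
    exact_mod_cast this.symm
  have hS0 : (p.1.1 : ℚ) ≠ 0 := by exact_mod_cast (by omega : p.1.1 ≠ 0)
  have hval' : ∀ i : Fin (k + 2), i ≠ 0 → tup p.1 p.2 i = tup q.1 q.2 i := by
    intro i hi
    have := hval i hi
    rw [← hS] at this
    have := (div_left_inj' hS0).1 this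
    exact_mod_cast this
  refine Prod.ext (Prod.ext hS ?_) ?_
  · exact hval' 1 (by simp)
  · funext l
    exact hval' l.succ.succ (Fin.succ_ne_zero _)

theorem par_card {k Y M : ℕ} (hY : 2 * Y ≤ M) (hM : 256 ≤ M) (h2 : 4 * (k + 1) ≤ M) :
    (1 / (8 * (4 * (k + 1)) ^ k) : ℝ) * (Y * M ^ (k + 1)) ≤ (par k Y M).card := by
  have hM0 : (0 : ℝ) < M := by exact_mod_cast (by omega : 0 < M)
  have hdiv : ∀ a b : ℕ, 0 < b → 2 * b ≤ a → (a : ℝ) / (2 * b) ≤ ((a / b : ℕ) : ℝ) := by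
    intro a b hb hab
    have hb0 : (0 : ℝ) < b := by exact_mod_cast hb
    have h3 := Nat.div_add_mod a b
    have h4 := Nat.mod_lt a hb
    have h5 : (a : ℝ) ≤ b * ((a / b : ℕ) : ℝ) + b := by
      have : a ≤ b * (a / b) + b := by omega
      exact_mod_cast this
    have h6 : (2 : ℝ) * b ≤ a := by exact_mod_cast hab
    rw [div_le_iff₀ (by positivity)]
    nlinarith
  have hQ := hdiv M (2 * (k + 1)) (by omega) (by omega)
  have hcop := cop_card M Y (by omega) hM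
  unfold par
  rw [card_product, Fintype.card_piFinset]
  simp only [Nat.card_Ioc, Nat.sub_zero, prod_const, Finset.card_univ, Fintype.card_fin]
  push_cast
  have h4 : ((M : ℝ) / (4 * (k + 1))) ^ k ≤ ((M / (2 * (k + 1)) : ℕ) : ℝ) ^ k := by
    refine pow_le_pow_left₀ (by positivity) ?_ _
    refine le_trans (le_of_eq ?_) hQ
    push_cast
    congr 1
    ring
  calc (1 / (8 * (4 * (k + 1)) ^ k) : ℝ) * (Y * M ^ (k + 1))
      = ((M : ℝ) * Y / 8) * ((M : ℝ) / (4 * (k + 1))) ^ k := by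
        rw [div_pow]
        field_simp
        try ring
    _ ≤ ((cop M Y).card : ℝ) * ((M / (2 * (k + 1)) : ℕ) : ℝ) ^ k :=
        mul_le_mul hcop h4 (by positivity) (by positivity)

/-- many exceptions -/
theorem lower_fam {k N K R : ℕ} {t : (Fin (k + 2) → ℕ) → ℕ → ℕ} {ix : Fin (k + 2) → ℕ}
    (hF : Fam k N t R ix) (hn : 2 ≤ 1 + N + K) (c μ : ℝ) (hμ1 : 1 ≤ μ)
    (hμ : μ * (k + 2 : ℕ) < (k + 3 : ℕ)) :
    ∃ c₀ : ℝ, 0 < c₀ ∧ ∃ X₀ : ℝ, ∀ X : ℝ, X₀ ≤ X → ∀ S : Set (Fin (1 + N + K) → ℚ), S.Finite →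
      (∀ z : Fin (1 + N + K) → ℚ, z ⟨0, by omega⟩ = 1 → ∀ h : Good z,
        logHeight z ≤ Real.log X →
        μ * ∑ v ∈ radset h hn, Real.log (Nv v) + c ≤ logHeight z → z ∈ S) →
      c₀ * X ^ (1 / μ - 1 / ((k + 3 : ℕ) : ℝ)) ≤ S.ncard := by
  have hR : (0 : ℝ) < R := by exact_mod_cast hF.R_pos
  set D : ℝ := ((k + 3 : ℕ) : ℝ) with hD
  have hD3 : 3 ≤ D := by rw [hD]; exact_mod_cast (by omega : 3 ≤ k + 3)
  have hk2 : ((k + 2 : ℕ) : ℝ) = D - 1 := by rw [hD]; push_cast; ring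
  rw [hk2] at hμ
  have hD0 : 0 < D := by linarith
  have hμ0 : 0 < μ := by linarith
  set η : ℝ := D / μ - (D - 1) with hη
  have hη0 : 0 < η := by
    rw [hη, sub_pos, lt_div_iff₀ hμ0]
    linarith
  have hη1 : η ≤ 1 := by
    have : D / μ ≤ D := div_le_self hD0.le hμ1
    rw [hη]
    linarith
  set a : ℝ := min (1 / 2) (Real.exp (-(c / μ)) / (2 * R)) with ha
  have ha0 : 0 < a := by rw [ha]; exact lt_min (by norm_num) (by positivity)
  have ha2 : a ≤ 1 / 2 := min_le_left _ _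
  have hac : Real.log a ≤ -(c / μ) - Real.log (2 * R) := by
    have h1 : a ≤ Real.exp (-(c / μ)) / (2 * R) := min_le_right _ _
    have h2 := Real.log_le_log ha0 h1
    rwa [Real.log_div (Real.exp_pos _).ne' (by positivity), Real.log_exp] at h2
  set ρ : ℝ → ℝ := fun X => (X / 2 ^ K) ^ (1 / D) / 2 with hρ
  set c₁ : ℝ := 1 / (8 * (4 * (k + 1)) ^ k) with hc₁
  have hc₁0 : 0 < c₁ := by positivity
  set B : ℝ := max 256 (max (4 * (k + 1)) ((2 / a) ^ (1 / η))) with hB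
  refine ⟨c₁ * (a / 2) * ((1 / 4) ^ (η + (k + 1 : ℕ)) *
    ((1 / 2 ^ K : ℝ) ^ (1 / μ - 1 / D))), by positivity,
    2 ^ K * (2 * (2 * B)) ^ (k + 3), ?_⟩
  intro X hX S hS hmem
  have hB256 : (256 : ℝ) ≤ B := le_max_left _ _
  have hX0 : 0 < X := lt_of_lt_of_le (by positivity) hX
  have hX1 : 0 < X / 2 ^ K := by positivity
  have hρB : 2 * B ≤ ρ X := by
    simp only [hρ]
    rw [le_div_iff₀ (by norm_num)]
    have h1 : (2 * (2 * B)) ^ (k + 3) ≤ X / 2 ^ K := by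
      rw [le_div_iff₀ (by positivity)]
      linarith
    have h2 : ((2 * (2 * B)) ^ (k + 3)) ^ (1 / D) ≤ (X / 2 ^ K) ^ (1 / D) :=
      Real.rpow_le_rpow (by positivity) h1 (by positivity)
    rw [← Real.rpow_natCast, ← Real.rpow_mul (by positivity), ← hD, mul_one_div_cancel hD0.ne',
      Real.rpow_one] at h2
    linarith
  set M : ℕ := ⌊ρ X⌋₊ with hM
  have hρ0 : 0 ≤ ρ X := le_trans (by positivity) hρB
  have hMle : (M : ℝ) ≤ ρ X := Nat.floor_le hρ0
  have hMge : ρ X / 2 ≤ M := by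
    have := Nat.lt_floor_add_one (ρ X)
    rw [← hM] at this
    linarith
  have hMB : B ≤ M := by linarith
  have hM256 : 256 ≤ M := by exact_mod_cast hB256.trans hMB
  have hM0 : (0 : ℝ) < M := by linarith
  have hM1 : (1 : ℝ) ≤ M := by linarith
  have hMk : 4 * (k + 1) ≤ M := by
    have : (4 * (k + 1) : ℝ) ≤ M := le_trans (le_trans (le_max_left _ _) (le_max_right _ _)) hMB
    exact_mod_cast this
  have hMη : 2 / a ≤ (M : ℝ) ^ η := by
    have h1 : (2 / a) ^ (1 / η) ≤ M := le_trans (le_trans (le_max_right _ _) (le_max_right _ _)) hMB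
    have h2 := Real.rpow_le_rpow (by positivity) h1 hη0.le
    rwa [← Real.rpow_mul (by positivity), one_div_mul_cancel hη0.ne', Real.rpow_one] at h2
  set Y : ℕ := ⌊a * (M : ℝ) ^ η⌋₊ with hYdef
  have haM : 2 ≤ a * (M : ℝ) ^ η := by
    rw [div_le_iff₀ ha0] at hMη
    linarith
  have hYle : (Y : ℝ) ≤ a * (M : ℝ) ^ η := Nat.floor_le (by positivity)
  have hYge : a / 2 * (M : ℝ) ^ η ≤ Y := by
    have := Nat.lt_floor_add_one (a * (M : ℝ) ^ η)
    rw [← hYdef] at this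
    linarith
  have hY0 : (0 : ℝ) < Y := lt_of_lt_of_le (by positivity) hYge
  have hY2 : 2 * Y ≤ M := by
    have h1 : (M : ℝ) ^ η ≤ M := by
      calc (M : ℝ) ^ η ≤ (M : ℝ) ^ (1 : ℝ) := Real.rpow_le_rpow_of_exponent_le hM1 hη1
        _ = M := Real.rpow_one _
    have h2 : (Y : ℝ) ≤ 1 / 2 * M :=
      hYle.trans (mul_le_mul ha2 h1 (by positivity) (by norm_num))
    have h3 : (2 * Y : ℝ) ≤ M := by linarith
    exact_mod_cast h3
  have hpow : ((2 ^ K * (2 * M) ^ (k + 3) : ℕ) : ℝ) ≤ X := by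
    have h1 : 2 * (M : ℝ) ≤ (X / 2 ^ K) ^ (1 / D) := by
      have : ρ X = (X / 2 ^ K) ^ (1 / D) / 2 := rfl
      linarith
    have h2 : (2 * (M : ℝ)) ^ (k + 3) ≤ X / 2 ^ K := by
      calc (2 * (M : ℝ)) ^ (k + 3) ≤ ((X / 2 ^ K) ^ (1 / D)) ^ (k + 3) :=
            pow_le_pow_left₀ (by positivity) h1 _
        _ = X / 2 ^ K := by
            rw [← Real.rpow_natCast, ← Real.rpow_mul hX1.le, ← hD, one_div_mul_cancel hD0.ne',
              Real.rpow_one]
    rw [le_div_iff₀ (by positivity)] at h2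
    push_cast
    linarith
  have hsub : ∀ p ∈ par k Y M, pt N K t ix p ∈ S := by
    intro p hp
    obtain ⟨h1, h2, h3, h4, h5, h6, h7⟩ := par_prop hY2 hp
    refine hmem _ ?_ (pt_good hF hY2 hp) ?_ ?_
    · unfold pt zn
      rw [if_pos rfl]
    · refine (pt_height_le hF hY2 hp).trans ?_
      refine Real.log_le_log ?_ hpow
      have : 0 < 2 ^ K * (2 * M) ^ (k + 3) := by
        have : 0 < M := by omega
        positivity
      exact_mod_cast this
    · have e1 := pt_radical hF hY2 hp hn (pt_good hF hY2 hp)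
      have e2 := pt_height_ge (K := K) hF hY2 hp
      rw [← hD] at e2
      rw [hk2] at e1
      have e3 : Real.log Y ≤ Real.log a + η * Real.log p.1.1 := by
        have h8 := Real.log_le_log hY0 hYle
        rw [Real.log_mul ha0.ne' (by positivity), Real.log_rpow hM0] at h8
        have h9 : Real.log M ≤ Real.log p.1.1 :=
          Real.log_le_log hM0 (by exact_mod_cast h1.le)
        nlinarith
      have e4 : ∑ v ∈ radset (pt_good hF hY2 hp) hn, Real.log (Nv v) ≤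
          -(c / μ) + D / μ * Real.log p.1.1 := by
        have : η * Real.log p.1.1 = D / μ * Real.log p.1.1 - (D - 1) * Real.log p.1.1 := by
          rw [hη]; ring
        linarith
      have e5 := mul_le_mul_of_nonneg_left e4 hμ0.le
      have e6 : μ * (-(c / μ) + D / μ * Real.log p.1.1) = -c + D * Real.log p.1.1 := by
        field_simp
      linarith
  have hcard : ((par k Y M).card : ℝ) ≤ S.ncard := by
    have h1 : ((par k Y M).image (pt N K t ix)).card = (par k Y M).card :=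
      card_image_of_injOn (pt_inj hF hY2)
    have h2 : (((par k Y M).image (pt N K t ix) : Finset (Fin (1 + N + K) → ℚ)) :
        Set (Fin (1 + N + K) → ℚ)) ⊆ S := by
      intro z hz
      rw [mem_coe, mem_image] at hz
      obtain ⟨p, hp, rfl⟩ := hz
      exact hsub p hp
    have h3 := Set.ncard_le_ncard h2 hS
    rw [Set.ncard_coe_finset, h1] at h3
    exact_mod_cast h3
  refine le_trans ?_ ((par_card hY2 hM256 hMk).trans hcard)
  have h5 : (ρ X / 2) ^ (η + (k + 1 : ℕ)) ≤ (M : ℝ) ^ (η + (k + 1 : ℕ)) :=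
    Real.rpow_le_rpow (by positivity) hMge (by positivity)
  have hexp : 1 / D * (η + (k + 1 : ℕ)) = 1 / μ - 1 / D := by
    have : ((k + 1 : ℕ) : ℝ) = D - 2 := by rw [hD]; push_cast; ring
    rw [this, hη]
    field_simp
    ring
  have h6 : (ρ X / 2) ^ (η + (k + 1 : ℕ)) = (1 / 4) ^ (η + (k + 1 : ℕ)) *
      ((1 / 2 ^ K : ℝ) ^ (1 / μ - 1 / D)) * X ^ (1 / μ - 1 / D) := by
    have e1 : ρ X / 2 = (1 / 4) * (X / 2 ^ K) ^ (1 / D) := by simp only [hρ]; ring
    rw [e1, Real.mul_rpow (by norm_num) (by positivity), ← Real.rpow_mul hX1.le, hexp, mul_assoc]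
    congr 1
    rw [← Real.mul_rpow (by positivity) hX0.le]
    congr 1
    ring
  have h7 : (M : ℝ) ^ (η + (k + 1 : ℕ)) = (M : ℝ) ^ η * (M : ℝ) ^ (k + 1) := by
    rw [Real.rpow_add hM0, Real.rpow_natCast]
  calc c₁ * (a / 2) * ((1 / 4) ^ (η + (k + 1 : ℕ)) * ((1 / 2 ^ K : ℝ) ^ (1 / μ - 1 / D))) *
        X ^ (1 / μ - 1 / D)
      = c₁ * (a / 2) * (ρ X / 2) ^ (η + (k + 1 : ℕ)) := by rw [h6]; ring
    _ ≤ c₁ * (a / 2) * (M : ℝ) ^ (η + (k + 1 : ℕ)) := mul_le_mul_of_nonneg_left h5 (by positivity)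
    _ = c₁ * ((a / 2 * (M : ℝ) ^ η) * (M : ℝ) ^ (k + 1)) := by rw [h7]; ring
    _ ≤ c₁ * (Y * (M : ℝ) ^ (k + 1)) := by
        refine mul_le_mul_of_nonneg_left ?_ hc₁0.le
        exact mul_le_mul_of_nonneg_right hYge (by positivity)

end Pool.Agent.Helper54.NT
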