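import Pool.Agent.Helper54.NT.Fib

/-! The number of zero-sum vectors over a number field with small radical. -/

set_option autoImplicit false
set_option linter.unusedSectionVars false

namespace Pool.Agent.Helper54.NT

open NumberField IsDedekindDomain Finset Height Pool.Agent.H691R3 Pool.Agent.W223.AK

variable {K : Type} [Field K] [NumberField K] {n : ℕ}

theorem T_empty_iff (x : Fin n → K) (v : Pr K) :
    T x v = ∅ ↔ ∀ i j, fv v (x i) = fv v (x j) := by
  constructor
  · intro h i j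
    have h1 : ∀ i j, fv v (x j) ≤ fv v (x i) := by
      intro i j
      by_contra hh
      have : i ∈ T x v := (mem_T x v i).2 ⟨j, not_le.1 hh⟩
      rw [h] at this
      exact notMem_empty _ this
    exact le_antisymm (h1 j i) (h1 i j)
  · intro h
    rw [eq_empty_iff_forall_notMem]
    intro i hi
    obtain ⟨j, hj⟩ := (mem_T x v i).1 hi
    rw [h i j] at hj
    exact lt_irrefl _ hj

theorem rad_finite {x : Fin n → K} (h : Good x) (hn : 2 ≤ n) :
    {v : Pr K | T x v ≠ ∅}.Finite := by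
  classical
  refine (Set.finite_iUnion fun i : Fin n => fv_support_finite (h.ne hn i)).subset ?_
  intro v hv
  simp only [Set.mem_ofPred_eq] at hv
  rw [Set.mem_iUnion]
  by_contra hcon
  push Not at hcon
  simp only [Set.mem_ofPred_eq, not_not] at hcon
  exact hv ((T_empty_iff x v).2 fun i j => by rw [hcon i, hcon j])

/-- the primes of the radical -/
noncomputable def radset {x : Fin n → K} (h : Good x) (hn : 2 ≤ n) : Finset (Pr K) :=
  (rad_finite h hn).toFinset

theorem mem_radset {x : Fin n → K} (h : Good x) (hn : 2 ≤ n) (v : Pr K) :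
    v ∈ radset h hn ↔ T x v ≠ ∅ := by simp [radset]

theorem tail_inj (σ : Equiv.Perm (Fin n)) :
    Set.InjOn (tail σ) (Icc 2 (n - 1) : Finset ℕ) := by
  intro j hj k hk h
  rw [mem_coe, mem_Icc] at hj hk
  have h1 := congrArg Finset.card h
  rw [card_tail, card_tail] at h1
  omega

/-- the primes outside the best chain carry at most the expected share -/
theorem exists_small {x : Fin n → K} (h : Good x) (hn : 2 ≤ n) :
    ∃ σ : Equiv.Perm (Fin n), ∀ [DecidablePred fun v : Pr K => T x v ∉ chain σ],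
      ∑ v ∈ (radset h hn).filter (fun v => T x v ∉ chain σ), Real.log (Nv v) ≤
        (1 - 1 / (n.choose (n / 2) : ℝ)) * ∑ v ∈ radset h hn, Real.log (Nv v) := by
  classical
  set w : Finset (Fin n) → ℝ := fun I =>
    ∑ v ∈ (radset h hn).filter (fun v => T x v = I), Real.log (Nv v) with hw
  have hpos : ∀ v : Pr K, 0 ≤ Real.log (Nv v) := fun v =>
    le_trans (Real.log_pos (by norm_num)).le (log_Nv_pos v)
  obtain ⟨σ, hσ⟩ := exists_chain w fun I => sum_nonneg fun v _ => hpos v
  refine ⟨σ, fun {_} => ?_⟩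
  have h1 : ∑ I ∈ univ.filter (fun I : Finset (Fin n) => 1 ≤ I.card ∧ I.card + 2 ≤ n), w I =
      ∑ v ∈ radset h hn, Real.log (Nv v) := by
    simp only [hw]
    refine sum_fiberwise_of_maps_to (g := fun v => T x v) ?_ _
    intro v hv
    rw [mem_radset] at hv
    rw [mem_filter]
    refine ⟨mem_univ _, ?_, card_T h hn v⟩
    exact card_pos.2 (nonempty_iff_ne_empty.2 hv)
  have h2 : ∑ k ∈ Icc 2 (n - 1), w (tail σ k) =
      ∑ v ∈ (radset h hn).filter (fun v => T x v ∈ chain σ), Real.log (Nv v) := by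
    have h3 : ∑ k ∈ Icc 2 (n - 1), w (tail σ k) = ∑ I ∈ chain σ, w I := by
      unfold chain
      rw [sum_image (tail_inj σ)]
    rw [h3]
    simp only [hw]
    rw [← sum_fiberwise_of_maps_to (s := (radset h hn).filter (fun v => T x v ∈ chain σ))
      (t := chain σ) (g := fun v => T x v) (fun v hv => (mem_filter.1 hv).2)]
    refine sum_congr rfl fun I hI => sum_congr ?_ fun _ _ => rfl
    ext v
    simp only [mem_filter]
    constructor
    · rintro ⟨h4, h5⟩; exact ⟨⟨h4, h5 ▸ hI⟩, h5⟩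
    · rintro ⟨⟨h4, _⟩, h5⟩; exact ⟨h4, h5⟩
  rw [h1, h2] at hσ
  have h3 := sum_filter_add_sum_filter_not (radset h hn) (fun v => T x v ∈ chain σ)
    (fun v => Real.log (Nv v))
  have h4 : ∑ v ∈ (radset h hn).filter (fun v => T x v ∉ chain σ), Real.log (Nv v) =
      ∑ v ∈ (radset h hn).filter (fun v => ¬ T x v ∈ chain σ), Real.log (Nv v) := by
    refine sum_congr ?_ fun _ _ => rfl
    ext v; simp only [mem_filter]
  rw [h4]
  linarith

/-- the main bound -/
theorem main (K : Type) [Field K] [NumberField K] (n : ℕ) (hn : 2 ≤ n) (ε : ℝ) (hε : 0 < ε) :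
    ∃ D : ℝ, 0 < D ∧ ∀ (B t : ℝ), 0 ≤ B → 0 ≤ t → ∀ E : Finset (Fin n → K),
      (∀ x ∈ E, ∃ h : Good x, logHeight x ≤ B ∧ ∑ v ∈ radset h hn, Real.log (Nv v) ≤ t) →
      (∀ x ∈ E, ∀ y ∈ E, (∀ i j, x i * y j = y i * x j) → x = y) →
      (E.card : ℝ) ≤ D * Real.exp ((1 - 1 / (n.choose (n / 2) : ℝ)) * t + ε * (B + t)) := by
  classical
  obtain ⟨D₁, hD₁, h₁⟩ := count_sets K (ε / 2) (by positivity)
  obtain ⟨D₂, hD₂, h₂⟩ := fiber K n hn (ε / 2) (by positivity)
  refine ⟨n.factorial * (D₁ * D₂), by positivity, fun B t hB ht E hE hprop => ?_⟩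
  have hpos : ∀ v : Pr K, 0 ≤ Real.log (Nv v) := fun v =>
    le_trans (Real.log_pos (by norm_num)).le (log_Nv_pos v)
  have hC : (1 : ℝ) ≤ (n.choose (n / 2) : ℝ) := by
    exact_mod_cast Nat.choose_pos (Nat.div_le_self n 2)
  set L : ℝ := (1 - 1 / (n.choose (n / 2) : ℝ)) * t with hL
  have hc0 : 0 ≤ 1 - 1 / (n.choose (n / 2) : ℝ) := by
    have : 1 / (n.choose (n / 2) : ℝ) ≤ 1 := by
      rw [div_le_one (by linarith)]; exact hC
    linarith
  have hc1 : 1 - 1 / (n.choose (n / 2) : ℝ) ≤ 1 := by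
    have : 0 ≤ 1 / (n.choose (n / 2) : ℝ) := by positivity
    linarith
  have hL0 : 0 ≤ L := mul_nonneg hc0 ht
  have hLt : L ≤ t := by rw [hL]; nlinarith
  -- the predicate
  set Pσ : Equiv.Perm (Fin n) → (Fin n → K) → Prop := fun σ x => ∃ U : Finset (Pr K),
    (∀ v, v ∈ U ↔ T x v ≠ ∅ ∧ T x v ∉ chain σ) ∧ ∑ v ∈ U, Real.log (Nv v) ≤ L with hPσ
  have hcover : ∀ x ∈ E, ∃ σ, Pσ σ x := by
    intro x hx
    obtain ⟨h, hxB, hxt⟩ := hE x hx
    obtain ⟨σ, hσ⟩ := exists_small h hn
    refine ⟨σ, (radset h hn).filter (fun v => T x v ∉ chain σ), ?_, ?_⟩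
    · intro v
      rw [mem_filter, mem_radset]
    · refine hσ.trans ?_
      rw [hL]
      exact mul_le_mul_of_nonneg_left hxt hc0
  have hsplit : (E.card : ℝ) ≤ ∑ σ : Equiv.Perm (Fin n), ((E.filter fun x => Pσ σ x).card : ℝ) := by
    have h1 : E ⊆ univ.biUnion fun σ : Equiv.Perm (Fin n) => E.filter fun x => Pσ σ x := by
      intro x hx
      obtain ⟨σ, hσ⟩ := hcover x hx
      exact mem_biUnion.2 ⟨σ, mem_univ _, mem_filter.2 ⟨hx, hσ⟩⟩
    exact_mod_cast (card_le_card h1).trans card_biUnion_le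
  have hone : ∀ σ : Equiv.Perm (Fin n), ((E.filter fun x => Pσ σ x).card : ℝ) ≤
      (D₁ * D₂) * Real.exp (L + ε * (B + t)) := by
    intro σ
    set E' := E.filter fun x => Pσ σ x with hE'
    set U : (Fin n → K) → Finset (Pr K) := fun x => if h : Pσ σ x then h.choose else ∅ with hUdef
    have hU : ∀ x ∈ E', (∀ v, v ∈ U x ↔ T x v ≠ ∅ ∧ T x v ∉ chain σ) ∧
        ∑ v ∈ U x, Real.log (Nv v) ≤ L := by
      intro x hx
      have hx' := (mem_filter.1 hx).2
      simp only [hUdef]
      rw [dif_pos hx']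
      exact hx'.choose_spec
    have himg : ((E'.image U).card : ℝ) ≤ D₁ * Real.exp (L + ε / 2 * L) := by
      refine h₁ L hL0 _ fun V hV => ?_
      obtain ⟨x, hx, rfl⟩ := mem_image.1 hV
      exact (hU x hx).2
    have hfib : ∀ V ∈ E'.image U, ((E'.filter fun x => U x = V).card : ℝ) ≤
        D₂ * Real.exp (ε / 2 * (B + t)) := by
      intro V hV
      obtain ⟨x₀, hx₀, hx₀V⟩ := mem_image.1 hV
      refine h₂ B t hB ht σ V ?_ _ ?_ ?_
      · rw [← hx₀V]; exact (hU x₀ hx₀).2.trans hLt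
      · intro x hx
        rw [mem_filter] at hx
        obtain ⟨h, hxB, _⟩ := hE x (mem_filter.1 hx.1).1
        refine ⟨h, hxB, fun v hv hv' => ?_⟩
        rw [← hx.2, (hU x hx.1).1]
        exact ⟨hv, hv'⟩
      · intro x hx y hy
        exact hprop x (mem_filter.1 (mem_filter.1 hx).1).1 y (mem_filter.1 (mem_filter.1 hy).1).1
    have h1 : (E'.card : ℝ) = ∑ V ∈ E'.image U, ((E'.filter fun x => U x = V).card : ℝ) := by
      exact_mod_cast card_eq_sum_card_image U E'
    rw [h1]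
    refine (sum_le_sum hfib).trans ?_
    rw [sum_const, nsmul_eq_mul]
    calc ((E'.image U).card : ℝ) * (D₂ * Real.exp (ε / 2 * (B + t)))
        ≤ (D₁ * Real.exp (L + ε / 2 * L)) * (D₂ * Real.exp (ε / 2 * (B + t))) :=
          mul_le_mul_of_nonneg_right himg (by positivity)
      _ = (D₁ * D₂) * Real.exp (L + ε / 2 * L + ε / 2 * (B + t)) := by
          rw [Real.exp_add (L + ε / 2 * L)]; ring
      _ ≤ (D₁ * D₂) * Real.exp (L + ε * (B + t)) := by
          refine mul_le_mul_of_nonneg_left (Real.exp_le_exp.2 ?_) (by positivity)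
          nlinarith
  refine hsplit.trans ((sum_le_sum fun σ _ => hone σ).trans (le_of_eq ?_))
  rw [sum_const, Finset.card_univ, Fintype.card_perm, Fintype.card_fin, nsmul_eq_mul]
  ring

end Pool.Agent.Helper54.NT
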